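import Pool.Agent.Helper80.WM.DenseGen

/-!
# Weighted layers: the block theorem, average form, second version
-/

set_option autoImplicit false

namespace Pool.Agent.Helper80.WM

open Pool.Agent.Helper68.SP Pool.Agent.Helper39.SR Pool.Agent.Helper39.SW

variable {E : Type} [Fintype E] [DecidableEq E]

/-- Very small blocks. -/
theorem dense_tiny1 {k : ℕ} (M : Fin k → Matroid E) {L : ℕ} (hL : 1 ≤ L) (S : ℕ → Finset E)
    (hSi : ∀ t < L, ∀ i, (M i).Indep (S t : Set E))
    (hSd : ∀ s < L, ∀ t < L, s ≠ t → Disjoint (S s) (S t)) (w : E → ℝ)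
    {s Γ : ℝ} (hs : 0 < s) (hΓ : 1 ≤ Γ)
    (hSw : ∀ t < L, ∀ e ∈ S t, s ≤ w e ∧ w e ≤ Γ * s)
    {p δ : ℝ} (hp : 0 < p) (hp1 : p ≤ 1) (hδ : 0 < δ) (hδ1 : δ ≤ 1) (hLp : Γ / δ ≤ p * L) {W : ℝ}
    (hW : L * W = ∑ t ∈ Finset.range L, ∑ e ∈ S t, w e) (hWs : W ≤ s) :
    (1 - δ) * W ≤
      Ex (fun _ => p) (fun R => optC (fun T : Finset E => ∀ i, (M i).Indep (T : Set E)) w
        ((Finset.range L).biUnion S ∩ R)) := by
  classical
  have hrate : IsRate (fun _ : E => p) := fun _ => ⟨hp.le, hp1⟩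
  set Com : Finset E → Prop := fun S => ∀ i, (M i).Indep (S : Set E) with hCom
  have hC0 : Com ∅ := fun i => by simp
  have hLR : (1 : ℝ) ≤ L := by exact_mod_cast hL
  have hLpos : (0 : ℝ) < L := by linarith
  have hΓ0 : 0 < Γ := by linarith
  set Q' : Finset E := (Finset.range L).biUnion S with hQ'
  have hmemQ : ∀ e ∈ Q', ∃ t < L, e ∈ S t := by
    intro e he
    rw [hQ', Finset.mem_biUnion] at he
    obtain ⟨t, ht, het⟩ := he
    exact ⟨t, Finset.mem_range.1 ht, het⟩
  have hQ'sum : ∑ e ∈ Q', w e = L * W := by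
    rw [hW, hQ', Finset.sum_biUnion]
    exact fun s hs t ht hne => hSd s (Finset.mem_range.1 (Finset.mem_coe.1 hs)) t
      (Finset.mem_range.1 (Finset.mem_coe.1 ht)) hne
  have hQ'c : L * W ≤ (Q'.card : ℝ) * (Γ * s) := by
    rw [← hQ'sum]
    have h1 : ∑ e ∈ Q', w e ≤ ∑ _e ∈ Q', Γ * s := by
      refine Finset.sum_le_sum fun e he => ?_
      obtain ⟨t, ht, het⟩ := hmemQ e he
      exact (hSw t ht e het).2
    rwa [Finset.sum_const, nsmul_eq_mul] at h1
  set x : ℝ := W / s with hx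
  have hxs : x * s = W := by rw [hx]; field_simp
  have hW0 : 0 ≤ W := by
    have h1 : 0 ≤ ∑ e ∈ Q', w e := Finset.sum_nonneg fun e he => by
      obtain ⟨t, ht, het⟩ := hmemQ e he
      exact hs.le.trans (hSw t ht e het).1
    rw [hQ'sum] at h1
    exact le_of_mul_le_mul_left (by linarith) hLpos
  have hx0 : 0 ≤ x := div_nonneg hW0 hs.le
  have hx1 : x ≤ 1 := by rw [hx, div_le_one hs]; exact hWs
  have hge : s * (1 - (1 - p) ^ Q'.card) ≤ Ex (fun _ => p) (fun R => optC Com w (Q' ∩ R)) := by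
    have h1 : ∀ R : Finset E, s * (1 - (if (Q' ∩ R).Nonempty then (0 : ℝ) else 1)) ≤
        optC Com w (Q' ∩ R) := by
      intro R
      split_ifs with h
      · obtain ⟨e, he⟩ := h
        obtain ⟨t, ht, het⟩ := hmemQ e (Finset.mem_inter.1 he).1
        have h2 : Com {e} := fun i => (hSi t ht i).subset (by simpa using het)
        have h3 := le_opt (w := w) (A := Q' ∩ R) (S := {e}) (by simpa using he) h2
        rw [Finset.sum_singleton] at h3
        have h4 := (hSw t ht e het).1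
        linarith
      · simp only [sub_self, mul_zero]
        exact opt_nonneg hC0 _
    refine le_trans (le_of_eq ?_) (Ex_mono hrate h1)
    rw [Ex_mul_left, Ex_sub, Ex_const, prob_miss]
  set A : ℝ := 1 / δ with hA
  have hA1 : 1 ≤ A := by rw [hA, le_div_iff₀ hδ]; linarith
  have hAδ : A * δ = 1 := by rw [hA]; field_simp
  have hexp : (1 - p) ^ Q'.card ≤ Real.exp (-(A * x)) := by
    have h3 : 1 - p ≤ Real.exp (-p) := by
      have := Real.add_one_le_exp (-p)
      linarith
    calc (1 - p) ^ Q'.card ≤ Real.exp (-p) ^ Q'.card :=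
          pow_le_pow_left₀ (by linarith) h3 _
      _ = Real.exp (-(p * Q'.card)) := by
          rw [← Real.exp_nat_mul]
          congr 1
          ring
      _ ≤ Real.exp (-(A * x)) := by
          refine Real.exp_le_exp.2 (neg_le_neg ?_)
          have h4 : L * x ≤ (Q'.card : ℝ) * Γ := by
            have h5 : L * x * s ≤ (Q'.card : ℝ) * Γ * s := by
              have : L * x * s = L * W := by rw [← hxs]; ring
              rw [this]
              linarith
            exact le_of_mul_le_mul_right h5 hs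
          have h5 : A * x * Γ ≤ p * Q'.card * Γ := by
            calc A * x * Γ = Γ / δ * x := by rw [hA]; ring
              _ ≤ p * L * x := mul_le_mul_of_nonneg_right hLp hx0
              _ = p * (L * x) := by ring
              _ ≤ p * ((Q'.card : ℝ) * Γ) := mul_le_mul_of_nonneg_left h4 hp.le
              _ = p * Q'.card * Γ := by ring
          exact le_of_mul_le_mul_right h5 hΓ0
  have hfin : (1 - δ) * x ≤ 1 - Real.exp (-(A * x)) := by
    have hAx : 0 ≤ A * x := mul_nonneg (by linarith) hx0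
    have h1 : 1 + A * x ≤ Real.exp (A * x) := by
      have := Real.add_one_le_exp (A * x)
      linarith
    have h2 : Real.exp (-(A * x)) ≤ 1 / (1 + A * x) := by
      rw [Real.exp_neg, ← one_div]
      exact one_div_le_one_div_of_le (by linarith) h1
    have h3 : (1 - δ) * x ≤ 1 - 1 / (1 + A * x) := by
      have h4 : 1 - 1 / (1 + A * x) = A * x / (1 + A * x) := by
        field_simp
        ring
      rw [h4, le_div_iff₀ (by linarith)]
      have h5 : (1 - δ) * (1 + A * x) ≤ A := by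
        have h6 : A * x ≤ A := by nlinarith
        have h7 : (1 - δ) * (1 + A * x) ≤ (1 - δ) * (1 + A) :=
          mul_le_mul_of_nonneg_left (by linarith) (by linarith)
        have h8 : (1 - δ) * (1 + A) = A - δ := by
          have : (1 - δ) * (1 + A) = 1 + A - δ - A * δ := by ring
          rw [this, hAδ]
          ring
        linarith
      calc (1 - δ) * x * (1 + A * x) = (1 - δ) * (1 + A * x) * x := by ring
        _ ≤ A * x := mul_le_mul_of_nonneg_right h5 hx0
    linarith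
  calc (1 - δ) * W = s * ((1 - δ) * x) := by rw [← hxs]; ring
    _ ≤ s * (1 - (1 - p) ^ Q'.card) := by
        refine mul_le_mul_of_nonneg_left ?_ hs.le
        linarith
    _ ≤ _ := hge

/-- The block theorem, average form, for a family of grids. -/
theorem dense_avg_gen1 {k : ℕ} (M : Fin k → Matroid E) {L : ℕ} (hL : 1 ≤ L) (S : ℕ → Finset E)
    (hSi : ∀ t < L, ∀ i, (M i).Indep (S t : Set E))
    (hSd : ∀ s < L, ∀ t < L, s ≠ t → Disjoint (S s) (S t)) (w : E → ℝ)
    {s Γ : ℝ} (hs : 0 < s) (hΓ : 1 ≤ Γ)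
    (hSw : ∀ t < L, ∀ e ∈ S t, s ≤ w e ∧ w e ≤ Γ * s)
    {p δ : ℝ} (hp : 0 < p) (hp1 : p ≤ 1) (hδ : 0 < δ) (hδ1 : δ ≤ 1)
    (hLd : (1000000 * Γ ^ 2 / δ ^ 2) * L * Real.exp (-(p ^ 2 * L * (δ / (8 * Γ)))) ≤ 1)
    {J : ℕ} (hJ : 1 ≤ J) (u h : Fin J → E → ℝ) {c κ : ℝ} (hc : 0 < c)
    (hκ : 1 / c * κ ≤ 1)
    (hhw : ∀ σ, ∀ t < L, ∀ e ∈ S t, h σ e ≤ c * w e)
    (havg : ∀ t < L, ∀ e ∈ S t, J * κ * w e ≤ ∑ σ, h σ e)
    (hmany : ∀ σ, ∀ B : Finset E, (∀ i, (M i).Indep (B : Set E)) → ∀ t < L,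
      ∃ F : Finset (Finset E), (∀ X ∈ F, X ⊆ S t ∧ X.Nonempty ∧ AugG M (u σ) B X) ∧
        ((F : Set (Finset E)).PairwiseDisjoint id) ∧
        ∑ e ∈ S t, h σ e ≤ c * (∑ e ∈ B, w e) + 2 * (Γ * s) * F.card) :
    (1 - δ) * ((1 / c) * (κ - δ)) *
        ((1 / (L : ℝ)) * ∑ t ∈ Finset.range L, ∑ e ∈ S t, w e) ≤
      Ex (fun _ => p) (fun R => optC (fun T : Finset E => ∀ i, (M i).Indep (T : Set E)) w
        ((Finset.range L).biUnion S ∩ R)) := by
  classical
  have hLR : (1 : ℝ) ≤ L := by exact_mod_cast hL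
  have hLpos : (0 : ℝ) < L := by linarith
  have hJR : (1 : ℝ) ≤ J := by exact_mod_cast hJ
  have hJpos : (0 : ℝ) < J := by linarith
  have hΓ0 : 0 < Γ := by linarith
  set W : ℝ := (1 / (L : ℝ)) * ∑ t ∈ Finset.range L, ∑ e ∈ S t, w e with hWdef
  have hW : L * W = ∑ t ∈ Finset.range L, ∑ e ∈ S t, w e := by
    rw [hWdef]
    field_simp
  have hW0 : 0 ≤ W := by
    refine mul_nonneg (by positivity) (Finset.sum_nonneg fun t ht => Finset.sum_nonneg fun e he => ?_)
    exact hs.le.trans (hSw t (Finset.mem_range.1 ht) e he).1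
  have hc0 : 0 ≤ 1 / c := by positivity
  rcases le_or_gt W s with hWs | hWs
  · have hLp : Γ / δ ≤ p * L := by
      set X : ℝ := p ^ 2 * L * (δ / (8 * Γ)) with hX
      have hX1 : 1 ≤ X := by
        by_contra hlt
        push Not at hlt
        have h1 : Real.exp (-1) ≤ Real.exp (-X) := Real.exp_le_exp.2 (by linarith)
        have h2 : (1 : ℝ) / 3 ≤ Real.exp (-1) := by
          rw [Real.exp_neg, ← one_div]
          have := Real.exp_one_lt_d9
          exact one_div_le_one_div_of_le (Real.exp_pos 1) (by linarith)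
        have h3 : (1 : ℝ) ≤ Γ ^ 2 / δ ^ 2 := by
          rw [le_div_iff₀ (by positivity)]
          have h4 : δ ^ 2 ≤ 1 := pow_le_one₀ hδ.le hδ1
          nlinarith
        have h4 : (1000000 : ℝ) * (1 / 3) ≤ 1000000 * Γ ^ 2 / δ ^ 2 * L * Real.exp (-X) := by
          have h5 : (1000000 : ℝ) * 1 ≤ 1000000 * (Γ ^ 2 / δ ^ 2) :=
            mul_le_mul_of_nonneg_left h3 (by norm_num)
          have h6 : 1000000 * Γ ^ 2 / δ ^ 2 = 1000000 * (Γ ^ 2 / δ ^ 2) := by ring
          have h7 : (1000000 : ℝ) ≤ 1000000 * Γ ^ 2 / δ ^ 2 * L := by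
            rw [h6]
            nlinarith
          exact mul_le_mul h7 (by linarith) (by norm_num) (by linarith)
        linarith
      have h2 : 8 * Γ / δ ≤ p ^ 2 * L := by
        have h3 : p ^ 2 * L = X * (8 * Γ / δ) := by
          rw [hX]
          field_simp
        rw [h3]
        have h4 : 0 ≤ 8 * Γ / δ := by positivity
        nlinarith
      have h3 : p ^ 2 * L ≤ p * L := by
        refine mul_le_mul_of_nonneg_right ?_ hLpos.le
        nlinarith
      have h4 : Γ / δ ≤ 8 * Γ / δ := by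
        rw [div_le_div_iff_of_pos_right hδ]
        linarith
      linarith
    refine le_trans ?_ (dense_tiny1 M hL S hSi hSd w hs hΓ hSw hp hp1 hδ hδ1 hLp hW hWs)
    refine mul_le_mul_of_nonneg_right ?_ hW0
    have h4 : (1 / c) * (κ - δ) ≤ (1 / c) * κ := mul_le_mul_of_nonneg_left (by linarith) hc0
    have h5 : (1 - δ) * ((1 / c) * (κ - δ)) ≤ (1 - δ) * 1 :=
      mul_le_mul_of_nonneg_left (by linarith) (by linarith)
    linarith
  · set Q' : Finset E := (Finset.range L).biUnion S with hQ'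
    have hLd' : Real.exp 1 * L * Real.exp (-(p ^ 2 * L * δ / (2 * Γ))) ≤ δ := by
      have hexp1 : Real.exp 1 ≤ 3 := by
        have := Real.exp_one_lt_d9
        linarith
      have h1 : Real.exp (-(p ^ 2 * L * δ / (2 * Γ))) ≤
          Real.exp (-(p ^ 2 * L * (δ / (8 * Γ)))) := by
        refine Real.exp_le_exp.2 (neg_le_neg ?_)
        have h2 : p ^ 2 * L * δ / (2 * Γ) = 4 * (p ^ 2 * L * (δ / (8 * Γ))) := by
          field_simp
          ring
        rw [h2]
        have h3 : 0 ≤ p ^ 2 * L * (δ / (8 * Γ)) := by positivity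
        linarith
      set Z : ℝ := L * Real.exp (-(p ^ 2 * L * (δ / (8 * Γ)))) with hZ
      have hZ0 : 0 ≤ Z := by positivity
      have h4 : (1000000 * Γ ^ 2 / δ ^ 2) * Z ≤ 1 := by
        rw [hZ, ← mul_assoc]
        exact hLd
      have h5 : 3 * Z ≤ δ := by
        have h6 : 3 / δ ≤ 1000000 * Γ ^ 2 / δ ^ 2 := by
          rw [div_le_div_iff₀ hδ (by positivity)]
          have h7 : (1 : ℝ) ≤ Γ ^ 2 := by nlinarith
          nlinarith [mul_pos hδ hδ]
        have h7 : 3 / δ * Z ≤ 1 := (mul_le_mul_of_nonneg_right h6 hZ0).trans h4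
        have h8 : 3 * Z = 3 / δ * Z * δ := by field_simp
        rw [h8]
        nlinarith
      calc Real.exp 1 * L * Real.exp (-(p ^ 2 * L * δ / (2 * Γ)))
          = Real.exp 1 * (L * Real.exp (-(p ^ 2 * L * δ / (2 * Γ)))) := by ring
        _ ≤ 3 * (L * Real.exp (-(p ^ 2 * L * (δ / (8 * Γ))))) := by
            refine mul_le_mul hexp1 (mul_le_mul_of_nonneg_left h1 hLpos.le) (by positivity)
              (by norm_num)
        _ ≤ δ := h5
    have hone : ∀ σ : Fin J, (1 - δ) * ((1 / c) *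
        ((1 / (L : ℝ)) * ∑ t ∈ Finset.range L, ∑ e ∈ S t, h σ e - δ * W)) ≤
        Ex (fun _ => p) (fun R => optC (fun T : Finset E => ∀ i, (M i).Indep (T : Set E)) w
          (Q' ∩ R)) := by
      intro σ
      refine dense_gen M hL S hSd w hs hΓ hSw hp.le hp1 hδ hδ1 hLd' (u σ) (h σ) hc
        (hhw σ) (hmany σ) hW ?_ hWs.le
      field_simp
    have hsum := Finset.sum_le_sum fun σ (_ : σ ∈ (Finset.univ : Finset (Fin J))) => hone σ
    rw [Finset.sum_const, Finset.card_univ, Fintype.card_fin, nsmul_eq_mul, ← Finset.mul_sum,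
      ← Finset.mul_sum, Finset.sum_sub_distrib, Finset.sum_const, Finset.card_univ,
      Fintype.card_fin, nsmul_eq_mul, ← Finset.mul_sum] at hsum
    have havg2 : J * κ * (L * W) ≤
        ∑ σ : Fin J, ∑ t ∈ Finset.range L, ∑ e ∈ S t, h σ e := by
      rw [hW, Finset.sum_comm, Finset.mul_sum]
      refine Finset.sum_le_sum fun t ht => ?_
      rw [Finset.sum_comm, Finset.mul_sum]
      exact Finset.sum_le_sum fun e he => havg t (Finset.mem_range.1 ht) e he
    have h3 : J * κ * W ≤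
        (1 / (L : ℝ)) * ∑ σ : Fin J, ∑ t ∈ Finset.range L, ∑ e ∈ S t, h σ e := by
      rw [one_div, ← div_eq_inv_mul, le_div_iff₀ hLpos]
      linarith
    have h4 : (1 - δ) * ((1 / c) * (J * κ * W - J * (δ * W))) ≤
        J * Ex (fun _ => p) (fun R => optC (fun T : Finset E => ∀ i, (M i).Indep (T : Set E)) w
          (Q' ∩ R)) := by
      refine le_trans ?_ hsum
      exact mul_le_mul_of_nonneg_left (mul_le_mul_of_nonneg_left (by linarith) hc0) (by linarith)
    have h5 : (1 - δ) * ((1 / c) * (J * κ * W - J * (δ * W))) =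
        J * ((1 - δ) * ((1 / c) * (κ - δ)) * W) := by ring
    rw [h5] at h4
    exact le_of_mul_le_mul_left h4 hJpos

end Pool.Agent.Helper80.WM
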