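import Pool.Agent.Helper39.SW.Defs

/-!
# Weighted layers: the union bound, average form
-/

set_option autoImplicit false

namespace Pool.Agent.Helper80.WM

open Pool.Agent.Helper68.SP Pool.Agent.Helper39.SR Pool.Agent.Helper39.SW

variable {E : Type} [Fintype E] [DecidableEq E]

/-- One grid, general form. -/
theorem dense_gen {k : ℕ} (M : Fin k → Matroid E) {L : ℕ} (hL : 1 ≤ L) (S : ℕ → Finset E)
    (hSd : ∀ s < L, ∀ t < L, s ≠ t → Disjoint (S s) (S t)) (w : E → ℝ)
    {s Γ : ℝ} (hs : 0 < s) (hΓ : 1 ≤ Γ)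
    (hSw : ∀ t < L, ∀ e ∈ S t, s ≤ w e ∧ w e ≤ Γ * s)
    {p δ : ℝ} (hp : 0 ≤ p) (hp1 : p ≤ 1) (hδ : 0 < δ) (hδ1 : δ ≤ 1)
    (hLd : Real.exp 1 * L * Real.exp (-(p ^ 2 * L * δ / (2 * Γ))) ≤ δ)
    (u h : E → ℝ) {c : ℝ} (hc : 0 < c) (hhw : ∀ t < L, ∀ e ∈ S t, h e ≤ c * w e)
    (hmany : ∀ B : Finset E, (∀ i, (M i).Indep (B : Set E)) → ∀ t < L,
      ∃ F : Finset (Finset E), (∀ X ∈ F, X ⊆ S t ∧ X.Nonempty ∧ AugG M u B X) ∧
        ((F : Set (Finset E)).PairwiseDisjoint id) ∧
        ∑ e ∈ S t, h e ≤ c * (∑ e ∈ B, w e) + 2 * (Γ * s) * F.card) {W V : ℝ}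
    (hW : L * W = ∑ t ∈ Finset.range L, ∑ e ∈ S t, w e)
    (hV : L * V = ∑ t ∈ Finset.range L, ∑ e ∈ S t, h e) (hWs : s ≤ W) :
    (1 - δ) * ((1 / c) * (V - δ * W)) ≤
      Ex (fun _ => p) (fun R => optC (fun T : Finset E => ∀ i, (M i).Indep (T : Set E)) w
        ((Finset.range L).biUnion S ∩ R)) := by
  classical
  have hrate : IsRate (fun _ : E => p) := fun _ => ⟨hp, hp1⟩
  set Com : Finset E → Prop := fun S => ∀ i, (M i).Indep (S : Set E) with hCom
  have hC0 : Com ∅ := fun i => by simp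
  have hLR : (1 : ℝ) ≤ L := by exact_mod_cast hL
  have hLpos : (0 : ℝ) < L := by linarith
  have hΓ0 : 0 < Γ := by linarith
  have hWpos : 0 < W := lt_of_lt_of_le hs hWs
  set Q' : Finset E := (Finset.range L).biUnion S with hQ'
  have hmemQ : ∀ e ∈ Q', ∃ t < L, e ∈ S t := by
    intro e he
    rw [hQ', Finset.mem_biUnion] at he
    obtain ⟨t, ht, het⟩ := he
    exact ⟨t, Finset.mem_range.1 ht, het⟩
  have hsw : ∀ e ∈ Q', s ≤ w e := by
    intro e he
    obtain ⟨t, ht, het⟩ := hmemQ e he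
    exact (hSw t ht e het).1
  set y : ℝ := W / s with hy
  have hy1 : 1 ≤ y := by rw [hy, le_div_iff₀ hs]; linarith
  have hys : y * s = W := by rw [hy]; field_simp
  have hsumle : ∀ B : Finset E, B ⊆ Q' → (B.card : ℝ) * s ≤ ∑ e ∈ B, w e := by
    intro B hB
    have h1 : ∑ _e ∈ B, s ≤ ∑ e ∈ B, w e := Finset.sum_le_sum fun e he => hsw e (hB he)
    rwa [Finset.sum_const, nsmul_eq_mul] at h1
  have hQ'sum : ∑ e ∈ Q', w e = L * W := by
    rw [hW, hQ', Finset.sum_biUnion]
    exact fun s hs t ht hne => hSd s (Finset.mem_range.1 (Finset.mem_coe.1 hs)) t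
      (Finset.mem_range.1 (Finset.mem_coe.1 ht)) hne
  have hQ'c : (Q'.card : ℝ) ≤ L * y := by
    have h1 := hsumle Q' subset_rfl
    rw [hQ'sum, ← hys] at h1
    have h2 : (Q'.card : ℝ) * s ≤ L * y * s := by linarith
    exact le_of_mul_le_mul_right h2 hs
  have hVW : V ≤ c * W := by
    have h1 : L * V ≤ L * (c * W) := by
      rw [hV, mul_left_comm, hW, Finset.mul_sum]
      refine Finset.sum_le_sum fun t ht => ?_
      rw [Finset.mul_sum]
      exact Finset.sum_le_sum fun e he => hhw t (Finset.mem_range.1 ht) e he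
    exact le_of_mul_le_mul_left h1 hLpos
  set a : ℝ := (1 / c) * (V - δ * W) with ha
  have hak : c * a = V - δ * W := by
    rw [ha]
    field_simp
  have haW : a ≤ W := by
    have h1 : c * a ≤ c * W := by
      rw [hak]
      have : 0 ≤ δ * W := by positivity
      linarith
    exact le_of_mul_le_mul_left h1 hc
  rcases le_or_gt a 0 with ha0 | ha0
  · refine le_trans ?_ (Ex_nonneg hrate fun R => opt_nonneg hC0 _)
    exact mul_nonpos_of_nonneg_of_nonpos (by linarith) ha0
  -- the families of augmentations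
  have hfam : ∀ B : Finset E, ∃ F : Finset (Finset E), B ⊆ Q' → Com B → (∑ e ∈ B, w e) < a →
      (∀ X ∈ F, X ⊆ Q' ∧ AugG M u B X) ∧
      ((F : Set (Finset E)).PairwiseDisjoint id) ∧
      (L : ℝ) * δ * y / (2 * Γ) ≤ F.card := by
    intro B
    by_cases hB : B ⊆ Q' ∧ Com B ∧ (∑ e ∈ B, w e) < a
    · obtain ⟨hB0, hB1, hB2⟩ := hB
      have h1 : ∀ t, ∃ F : Finset (Finset E), t < L →
          (∀ X ∈ F, X ⊆ S t ∧ X.Nonempty ∧ AugG M u B X) ∧
          ((F : Set (Finset E)).PairwiseDisjoint id) ∧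
          ∑ e ∈ S t, h e ≤ c * (∑ e ∈ B, w e) + 2 * (Γ * s) * F.card := by
        intro t
        by_cases ht : t < L
        · obtain ⟨F, hF1, hF2, hF3⟩ := hmany B hB1 t ht
          exact ⟨F, fun _ => ⟨hF1, hF2, hF3⟩⟩
        · exact ⟨∅, fun h => absurd h ht⟩
      choose F hF using h1
      refine ⟨(Finset.range L).biUnion F, fun _ _ _ => ⟨?_, ?_, ?_⟩⟩
      · intro X hX
        rw [Finset.mem_biUnion] at hX
        obtain ⟨t, ht, hXt⟩ := hX
        have ht' := Finset.mem_range.1 ht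
        have h2 := (hF t ht').1 X hXt
        exact ⟨h2.1.trans (Finset.subset_biUnion_of_mem S ht), h2.2.2⟩
      · intro X hX Y hY hne
        rw [Finset.mem_coe, Finset.mem_biUnion] at hX hY
        obtain ⟨s, hs, hXs⟩ := hX
        obtain ⟨t, ht, hYt⟩ := hY
        have hs' := Finset.mem_range.1 hs
        have ht' := Finset.mem_range.1 ht
        by_cases hst : s = t
        · subst hst
          exact (hF s hs').2.1 (Finset.mem_coe.2 hXs) (Finset.mem_coe.2 hYt) hne
        · exact (hSd s hs' t ht' hst).mono ((hF s hs').1 X hXs).1 ((hF t ht').1 Y hYt).1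
      · have hcard : ((Finset.range L).biUnion F).card = ∑ t ∈ Finset.range L, (F t).card := by
          refine Finset.card_biUnion fun s hs t ht hst => ?_
          have hs' := Finset.mem_range.1 hs
          have ht' := Finset.mem_range.1 ht
          rw [Function.onFun, Finset.disjoint_left]
          intro X hXs hXt
          obtain ⟨e, he⟩ := ((hF s hs').1 X hXs).2.1
          exact Finset.disjoint_left.1 (hSd s hs' t ht' hst) (((hF s hs').1 X hXs).1 he)
            (((hF t ht').1 X hXt).1 he)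
        rw [hcard]
        push_cast
        have hvB : c * (∑ e ∈ B, w e) ≤ V - δ * W := by
          rw [← hak]
          exact mul_le_mul_of_nonneg_left hB2.le hc.le
        have h3 : ∀ t ∈ Finset.range L,
            ∑ e ∈ S t, h e ≤ (V - δ * W) + 2 * (Γ * s) * ((F t).card : ℝ) := by
          intro t ht
          have h4 := (hF t (Finset.mem_range.1 ht)).2.2
          linarith
        have h7 := Finset.sum_le_sum h3
        rw [← hV, Finset.sum_add_distrib, ← Finset.mul_sum, Finset.sum_const,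
          Finset.card_range, nsmul_eq_mul] at h7
        rw [div_le_iff₀ (by linarith)]
        have h8 : L * δ * y * s ≤
            (∑ t ∈ Finset.range L, ((F t).card : ℝ)) * (2 * Γ) * s := by
          have h9 : L * δ * y * s = L * (δ * W) := by rw [← hys]; ring
          rw [h9]
          linarith
        exact le_of_mul_le_mul_right h8 hs
    · exact ⟨∅, fun h0 h1 h2 => absurd ⟨h0, h1, h2⟩ hB⟩
  choose F hF using hfam
  let BB : Finset (Finset E) := Q'.powerset.filter fun B => Com B ∧ (∑ e ∈ B, w e) < a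
  let Gd : Finset E → Prop := fun R => ∀ B ∈ BB, ¬ ∀ X ∈ F B, ¬ X ⊆ R
  have hgood : ∀ R, Gd R → a ≤ optC Com w (Q' ∩ R) := by
    intro R hG
    obtain ⟨B, hB1, hB2, hB3⟩ := opt_attained (w := u) hC0 (Q' ∩ R)
    have hB0 : B ⊆ Q' := hB1.trans Finset.inter_subset_left
    have h1 : a ≤ ∑ e ∈ B, w e := by
      by_contra hlt
      push Not at hlt
      have hBB : B ∈ BB := Finset.mem_filter.2 ⟨Finset.mem_powerset.2 hB0, hB2, hlt⟩
      have h2 := hG B hBB
      push Not at h2
      obtain ⟨X, hX, hXR⟩ := h2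
      obtain ⟨hX1, -, B', hB'1, hB'2, hB'3⟩ := (hF B hB0 hB2 hlt).1 X hX
      have h3 : B' ⊆ Q' ∩ R := by
        refine hB'2.trans (Finset.union_subset hB1 (Finset.subset_inter hX1 hXR))
      have h4 := le_opt (w := u) h3 (show Com B' from hB'1)
      rw [← hB3] at h4
      linarith
    exact h1.trans (le_opt hB1 hB2)
  have hp2 : p ^ 2 ≤ 1 := pow_le_one₀ hp hp1
  have hlogL : 0 ≤ Real.log L := Real.log_nonneg hLR
  have hcount : (BB.card : ℝ) ≤ Real.exp (y * (1 + Real.log L)) := by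
    have h1 : (BB.card : ℝ) * Real.exp (-(y * Real.log L)) ≤ Real.exp y := by
      calc (BB.card : ℝ) * Real.exp (-(y * Real.log L)) =
            ∑ _B ∈ BB, Real.exp (-(y * Real.log L)) := by
            rw [Finset.sum_const, nsmul_eq_mul]
        _ ≤ ∑ B ∈ BB, (1 / (L : ℝ)) ^ B.card := by
            refine Finset.sum_le_sum fun B hB => ?_
            obtain ⟨hBp, -, h5⟩ := Finset.mem_filter.1 hB
            have h2 : (B.card : ℝ) ≤ y := by
              have h3 := hsumle B (Finset.mem_powerset.1 hBp)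
              have h4 : (B.card : ℝ) * s ≤ y * s := by rw [hys]; linarith
              exact le_of_mul_le_mul_right h4 hs
            have h3 : (1 / (L : ℝ)) = Real.exp (-Real.log L) := by
              rw [Real.exp_neg, Real.exp_log hLpos, one_div]
            rw [h3, ← Real.exp_nat_mul]
            refine Real.exp_le_exp.2 ?_
            nlinarith
        _ ≤ ∑ B ∈ Q'.powerset, (1 / (L : ℝ)) ^ B.card :=
            Finset.sum_le_sum_of_subset_of_nonneg (Finset.filter_subset _ _)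
              fun B _ _ => by positivity
        _ = ∑ B ∈ Q'.powerset, (1 / (L : ℝ)) ^ B.card * 1 ^ (Q'.card - B.card) := by
            simp
        _ = (1 / (L : ℝ) + 1) ^ Q'.card := Finset.sum_pow_mul_eq_add_pow _ _ _
        _ ≤ Real.exp (1 / (L : ℝ)) ^ Q'.card :=
            pow_le_pow_left₀ (by positivity) (Real.add_one_le_exp _) _
        _ ≤ Real.exp y := by
            rw [← Real.exp_nat_mul]
            refine Real.exp_le_exp.2 ?_
            rw [mul_one_div, div_le_iff₀ hLpos]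
            linarith
    have h2 : (BB.card : ℝ) = (BB.card : ℝ) * Real.exp (-(y * Real.log L)) *
        Real.exp (y * Real.log L) := by
      rw [mul_assoc, ← Real.exp_add, neg_add_cancel, Real.exp_zero, mul_one]
    rw [h2]
    refine (mul_le_mul_of_nonneg_right h1 (Real.exp_pos _).le).trans (le_of_eq ?_)
    rw [← Real.exp_add]
    congr 1
    ring
  have hnum : 1 + Real.log L - p ^ 2 * L * δ / (2 * Γ) ≤ Real.log δ := by
    rw [← Real.exp_le_exp, Real.exp_log hδ]
    refine le_trans (le_of_eq ?_) hLd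
    rw [sub_eq_add_neg, Real.exp_add, Real.exp_add, Real.exp_log hLpos]
  have hprob : 1 - δ ≤ Ex (fun _ => p) (fun R => if Gd R then (1 : ℝ) else 0) := by
    have h1 : ∀ R, (1 : ℝ) - ∑ B ∈ BB, (if ∀ X ∈ F B, ¬ X ⊆ R then (1 : ℝ) else 0) ≤
        if Gd R then (1 : ℝ) else 0 := by
      intro R
      have h0 : ∀ B ∈ BB, (0 : ℝ) ≤ if ∀ X ∈ F B, ¬ X ⊆ R then (1 : ℝ) else 0 := by
        intro B _
        split_ifs <;> norm_num
      by_cases h : Gd R
      · rw [if_pos h]
        have := Finset.sum_nonneg h0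
        linarith
      · rw [if_neg h]
        simp only [Gd, not_forall, not_not] at h
        obtain ⟨B, hB, hBX⟩ := h
        have h3 := Finset.single_le_sum (f := fun B => if ∀ X ∈ F B, ¬ X ⊆ R then (1 : ℝ) else 0)
          h0 hB
        have h4 : (if ∀ X ∈ F B, ¬ X ⊆ R then (1 : ℝ) else 0) = 1 := if_pos (by
          simpa using hBX)
        simp only [h4] at h3
        linarith
    refine le_trans ?_ (Ex_mono hrate h1)
    rw [Ex_sub, Ex_const, Ex_sum]
    have h2 : ∀ B ∈ BB, Ex (fun _ => p) (fun R => if ∀ X ∈ F B, ¬ X ⊆ R then (1 : ℝ) else 0) ≤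
        Real.exp (-(y * (p ^ 2 * L * δ / (2 * Γ)))) := by
      intro B hB
      obtain ⟨hB0, hB1, hB2⟩ := Finset.mem_filter.1 hB
      obtain ⟨hF1, hF2, hF3⟩ := hF B (Finset.mem_powerset.1 hB0) hB1 hB2
      refine (prob_none hp hp1 (F B) hF2 fun X hX => (hF1 X hX).2.1).trans ?_
      have h3 : 1 - p ^ 2 ≤ Real.exp (-(p ^ 2)) := by
        have := Real.add_one_le_exp (-(p ^ 2))
        linarith
      calc (1 - p ^ 2) ^ (F B).card ≤ Real.exp (-(p ^ 2)) ^ (F B).card :=
            pow_le_pow_left₀ (by linarith) h3 _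
        _ = Real.exp (-(p ^ 2 * (F B).card)) := by
            rw [← Real.exp_nat_mul]
            congr 1
            ring
        _ ≤ Real.exp (-(p ^ 2 * (L * δ * y / (2 * Γ)))) := by
            refine Real.exp_le_exp.2 (neg_le_neg ?_)
            exact mul_le_mul_of_nonneg_left hF3 (by positivity)
        _ = Real.exp (-(y * (p ^ 2 * L * δ / (2 * Γ)))) := by
            congr 1
            ring
    have h3 : ∑ B ∈ BB, Ex (fun _ => p) (fun R => if ∀ X ∈ F B, ¬ X ⊆ R then (1 : ℝ) else 0) ≤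
        δ := by
      refine (Finset.sum_le_sum h2).trans ?_
      rw [Finset.sum_const, nsmul_eq_mul]
      have hlogδ : Real.log δ ≤ 0 := Real.log_nonpos hδ.le hδ1
      calc (BB.card : ℝ) * Real.exp (-(y * (p ^ 2 * L * δ / (2 * Γ))))
          ≤ Real.exp (y * (1 + Real.log L)) *
              Real.exp (-(y * (p ^ 2 * L * δ / (2 * Γ)))) :=
            mul_le_mul_of_nonneg_right hcount (Real.exp_pos _).le
        _ = Real.exp (y * (1 + Real.log L - p ^ 2 * L * δ / (2 * Γ))) := by
            rw [← Real.exp_add]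
            congr 1
            ring
        _ ≤ Real.exp (Real.log δ) := by
            refine Real.exp_le_exp.2 ?_
            nlinarith
        _ = δ := Real.exp_log hδ
    linarith
  calc (1 - δ) * a = a * (1 - δ) := by ring
    _ ≤ a * Ex (fun _ => p) (fun R => if Gd R then (1 : ℝ) else 0) :=
        mul_le_mul_of_nonneg_left hprob ha0.le
    _ = Ex (fun _ => p) (fun R => a * (if Gd R then (1 : ℝ) else 0)) := by
        rw [Ex_mul_left]
    _ ≤ Ex (fun _ => p) (fun R => optC Com w (Q' ∩ R)) := by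
        refine Ex_mono hrate fun R => ?_
        split_ifs with h
        · rw [mul_one]
          exact hgood R h
        · rw [mul_zero]
          exact opt_nonneg hC0 _

/-- Very small blocks. -/
theorem dense_tiny {k : ℕ} (M : Fin k → Matroid E) {L : ℕ} (hL : 1 ≤ L) (S : ℕ → Finset E)
    (hSi : ∀ t < L, ∀ i, (M i).Indep (S t : Set E))
    (hSd : ∀ s < L, ∀ t < L, s ≠ t → Disjoint (S s) (S t)) (w : E → ℝ)
    {s Γ : ℝ} (hs : 0 < s) (hΓ : 1 ≤ Γ)
    (hSw : ∀ t < L, ∀ e ∈ S t, s ≤ w e ∧ w e ≤ Γ * s)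
    {p : ℝ} (hp : 0 < p) (hp1 : p ≤ 1) (hLp : 4 * Γ ≤ p * L) {W : ℝ}
    (hW : L * W = ∑ t ∈ Finset.range L, ∑ e ∈ S t, w e) (hWs : W ≤ s) :
    4 / 5 * W ≤
      Ex (fun _ => p) (fun R => optC (fun T : Finset E => ∀ i, (M i).Indep (T : Set E)) w
        ((Finset.range L).biUnion S ∩ R)) := by
  classical
  have hrate : IsRate (fun _ : E => p) := fun _ => ⟨hp.le, hp1⟩
  set Com : Finset E → Prop := fun S => ∀ i, (M i).Indep (S : Set E) with hCom
  have hC0 : Com ∅ := fun i => by simp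
  have hLR : (1 : ℝ) ≤ L := by exact_mod_cast hL
  have hLpos : (0 : ℝ) < L := by linarith
  have hΓ0 : 0 < Γ := by linarith
  set Q' : Finset E := (Finset.range L).biUnion S with hQ'
  have hmemQ : ∀ e ∈ Q', ∃ t < L, e ∈ S t := by
    intro e he
    rw [hQ', Finset.mem_biUnion] at he
    obtain ⟨t, ht, het⟩ := he
    exact ⟨t, Finset.mem_range.1 ht, het⟩
  have hQ'sum : ∑ e ∈ Q', w e = L * W := by
    rw [hW, hQ', Finset.sum_biUnion]
    exact fun s hs t ht hne => hSd s (Finset.mem_range.1 (Finset.mem_coe.1 hs)) t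
      (Finset.mem_range.1 (Finset.mem_coe.1 ht)) hne
  have hQ'c : L * W ≤ (Q'.card : ℝ) * (Γ * s) := by
    rw [← hQ'sum]
    have h1 : ∑ e ∈ Q', w e ≤ ∑ _e ∈ Q', Γ * s := by
      refine Finset.sum_le_sum fun e he => ?_
      obtain ⟨t, ht, het⟩ := hmemQ e he
      exact (hSw t ht e het).2
    rwa [Finset.sum_const, nsmul_eq_mul] at h1
  set x : ℝ := W / s with hx
  have hxs : x * s = W := by rw [hx]; field_simp
  have hW0 : 0 ≤ W := by
    have h1 : 0 ≤ ∑ e ∈ Q', w e := Finset.sum_nonneg fun e he => by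
      obtain ⟨t, ht, het⟩ := hmemQ e he
      exact hs.le.trans (hSw t ht e het).1
    rw [hQ'sum] at h1
    exact le_of_mul_le_mul_left (by linarith) hLpos
  have hx0 : 0 ≤ x := div_nonneg hW0 hs.le
  have hx1 : x ≤ 1 := by rw [hx, div_le_one hs]; exact hWs
  have hge : s * (1 - (1 - p) ^ Q'.card) ≤ Ex (fun _ => p) (fun R => optC Com w (Q' ∩ R)) := by
    have h1 : ∀ R : Finset E, s * (1 - (if (Q' ∩ R).Nonempty then (0 : ℝ) else 1)) ≤
        optC Com w (Q' ∩ R) := by
      intro R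
      split_ifs with h
      · obtain ⟨e, he⟩ := h
        obtain ⟨t, ht, het⟩ := hmemQ e (Finset.mem_inter.1 he).1
        have h2 : Com {e} := fun i => (hSi t ht i).subset (by simpa using het)
        have h3 := le_opt (w := w) (A := Q' ∩ R) (S := {e}) (by simpa using he) h2
        rw [Finset.sum_singleton] at h3
        have h4 := (hSw t ht e het).1
        linarith
      · simp only [sub_self, mul_zero]
        exact opt_nonneg hC0 _
    refine le_trans (le_of_eq ?_) (Ex_mono hrate h1)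
    rw [Ex_mul_left, Ex_sub, Ex_const, prob_miss]
  have hexp : (1 - p) ^ Q'.card ≤ Real.exp (-(4 * x)) := by
    have h3 : 1 - p ≤ Real.exp (-p) := by
      have := Real.add_one_le_exp (-p)
      linarith
    calc (1 - p) ^ Q'.card ≤ Real.exp (-p) ^ Q'.card :=
          pow_le_pow_left₀ (by linarith) h3 _
      _ = Real.exp (-(p * Q'.card)) := by
          rw [← Real.exp_nat_mul]
          congr 1
          ring
      _ ≤ Real.exp (-(4 * x)) := by
          refine Real.exp_le_exp.2 (neg_le_neg ?_)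
          have h4 : L * x ≤ (Q'.card : ℝ) * Γ := by
            have h5 : L * x * s ≤ (Q'.card : ℝ) * Γ * s := by
              have : L * x * s = L * W := by rw [← hxs]; ring
              rw [this]
              linarith
            exact le_of_mul_le_mul_right h5 hs
          have h5 : 4 * x * Γ ≤ p * Q'.card * Γ := by
            calc 4 * x * Γ = 4 * Γ * x := by ring
              _ ≤ p * L * x := mul_le_mul_of_nonneg_right hLp hx0
              _ = p * (L * x) := by ring
              _ ≤ p * ((Q'.card : ℝ) * Γ) := mul_le_mul_of_nonneg_left h4 hp.le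
              _ = p * Q'.card * Γ := by ring
          exact le_of_mul_le_mul_right h5 hΓ0
  have hfin : 4 / 5 * x ≤ 1 - Real.exp (-(4 * x)) := by
    have h1 : 1 + 4 * x ≤ Real.exp (4 * x) := by
      have := Real.add_one_le_exp (4 * x)
      linarith
    have h2 : Real.exp (-(4 * x)) ≤ 1 / (1 + 4 * x) := by
      rw [Real.exp_neg, ← one_div]
      exact one_div_le_one_div_of_le (by linarith) h1
    have h3 : 4 / 5 * x ≤ 1 - 1 / (1 + 4 * x) := by
      have h4 : 1 - 1 / (1 + 4 * x) = 4 * x / (1 + 4 * x) := by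
        field_simp
        ring
      rw [h4, le_div_iff₀ (by linarith)]
      nlinarith
    linarith
  calc 4 / 5 * W = s * (4 / 5 * x) := by rw [← hxs]; ring
    _ ≤ s * (1 - (1 - p) ^ Q'.card) := by
        refine mul_le_mul_of_nonneg_left ?_ hs.le
        linarith
    _ ≤ _ := hge

/-- The block theorem, average form, for a family of grids. -/
theorem dense_avg_gen {k : ℕ} (M : Fin k → Matroid E) {L : ℕ} (hL : 1 ≤ L) (S : ℕ → Finset E)
    (hSi : ∀ t < L, ∀ i, (M i).Indep (S t : Set E))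
    (hSd : ∀ s < L, ∀ t < L, s ≠ t → Disjoint (S s) (S t)) (w : E → ℝ)
    {s Γ : ℝ} (hs : 0 < s) (hΓ : 1 ≤ Γ)
    (hSw : ∀ t < L, ∀ e ∈ S t, s ≤ w e ∧ w e ≤ Γ * s)
    {p δ : ℝ} (hp : 0 < p) (hp1 : p ≤ 1) (hδ : 0 < δ) (hδ1 : δ ≤ 1)
    (hLd : (1000000 * Γ ^ 2 / δ ^ 2) * L * Real.exp (-(p ^ 2 * L * (δ / (8 * Γ)))) ≤ 1)
    (hLp : 4 * Γ ≤ p * L) {J : ℕ} (hJ : 1 ≤ J) (u h : Fin J → E → ℝ) {c κ : ℝ} (hc : 0 < c)
    (hκ : 1 / c * κ ≤ 4 / 5) (hκδ : δ ≤ κ)
    (hhw : ∀ σ, ∀ t < L, ∀ e ∈ S t, h σ e ≤ c * w e)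
    (havg : ∀ t < L, ∀ e ∈ S t, J * κ * w e ≤ ∑ σ, h σ e)
    (hmany : ∀ σ, ∀ B : Finset E, (∀ i, (M i).Indep (B : Set E)) → ∀ t < L,
      ∃ F : Finset (Finset E), (∀ X ∈ F, X ⊆ S t ∧ X.Nonempty ∧ AugG M (u σ) B X) ∧
        ((F : Set (Finset E)).PairwiseDisjoint id) ∧
        ∑ e ∈ S t, h σ e ≤ c * (∑ e ∈ B, w e) + 2 * (Γ * s) * F.card) :
    (1 - δ) * ((1 / c) * (κ - δ)) *
        ((1 / (L : ℝ)) * ∑ t ∈ Finset.range L, ∑ e ∈ S t, w e) ≤
      Ex (fun _ => p) (fun R => optC (fun T : Finset E => ∀ i, (M i).Indep (T : Set E)) w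
        ((Finset.range L).biUnion S ∩ R)) := by
  classical
  have hLR : (1 : ℝ) ≤ L := by exact_mod_cast hL
  have hLpos : (0 : ℝ) < L := by linarith
  have hJR : (1 : ℝ) ≤ J := by exact_mod_cast hJ
  have hJpos : (0 : ℝ) < J := by linarith
  have hΓ0 : 0 < Γ := by linarith
  set W : ℝ := (1 / (L : ℝ)) * ∑ t ∈ Finset.range L, ∑ e ∈ S t, w e with hWdef
  have hW : L * W = ∑ t ∈ Finset.range L, ∑ e ∈ S t, w e := by
    rw [hWdef]
    field_simp
  have hW0 : 0 ≤ W := by
    refine mul_nonneg (by positivity) (Finset.sum_nonneg fun t ht => Finset.sum_nonneg fun e he => ?_)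
    exact hs.le.trans (hSw t (Finset.mem_range.1 ht) e he).1
  have hc0 : 0 ≤ 1 / c := by positivity
  rcases le_or_gt W s with hWs | hWs
  · refine le_trans ?_ (dense_tiny M hL S hSi hSd w hs hΓ hSw hp hp1 hLp hW hWs)
    refine mul_le_mul_of_nonneg_right ?_ hW0
    have h2 : 0 ≤ (1 / c) * (κ - δ) := mul_nonneg hc0 (by linarith)
    have h3 : (1 - δ) * ((1 / c) * (κ - δ)) ≤ 1 * ((1 / c) * (κ - δ)) :=
      mul_le_mul_of_nonneg_right (by linarith) h2
    have h4 : (1 / c) * (κ - δ) ≤ (1 / c) * κ := mul_le_mul_of_nonneg_left (by linarith) hc0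
    linarith
  · set Q' : Finset E := (Finset.range L).biUnion S with hQ'
    have hLd' : Real.exp 1 * L * Real.exp (-(p ^ 2 * L * δ / (2 * Γ))) ≤ δ := by
      have hexp1 : Real.exp 1 ≤ 3 := by
        have := Real.exp_one_lt_d9
        linarith
      have h1 : Real.exp (-(p ^ 2 * L * δ / (2 * Γ))) ≤
          Real.exp (-(p ^ 2 * L * (δ / (8 * Γ)))) := by
        refine Real.exp_le_exp.2 (neg_le_neg ?_)
        have h2 : p ^ 2 * L * δ / (2 * Γ) = 4 * (p ^ 2 * L * (δ / (8 * Γ))) := by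
          field_simp
          ring
        rw [h2]
        have h3 : 0 ≤ p ^ 2 * L * (δ / (8 * Γ)) := by positivity
        linarith
      set Z : ℝ := L * Real.exp (-(p ^ 2 * L * (δ / (8 * Γ)))) with hZ
      have hZ0 : 0 ≤ Z := by positivity
      have h4 : (1000000 * Γ ^ 2 / δ ^ 2) * Z ≤ 1 := by
        rw [hZ, ← mul_assoc]
        exact hLd
      have h5 : 3 * Z ≤ δ := by
        have h6 : 3 / δ ≤ 1000000 * Γ ^ 2 / δ ^ 2 := by
          rw [div_le_div_iff₀ hδ (by positivity)]
          have h7 : (1 : ℝ) ≤ Γ ^ 2 := by nlinarith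
          nlinarith [mul_pos hδ hδ]
        have h7 : 3 / δ * Z ≤ 1 := (mul_le_mul_of_nonneg_right h6 hZ0).trans h4
        have h8 : 3 * Z = 3 / δ * Z * δ := by field_simp
        rw [h8]
        nlinarith
      calc Real.exp 1 * L * Real.exp (-(p ^ 2 * L * δ / (2 * Γ)))
          = Real.exp 1 * (L * Real.exp (-(p ^ 2 * L * δ / (2 * Γ)))) := by ring
        _ ≤ 3 * (L * Real.exp (-(p ^ 2 * L * (δ / (8 * Γ))))) := by
            refine mul_le_mul hexp1 (mul_le_mul_of_nonneg_left h1 hLpos.le) (by positivity)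
              (by norm_num)
        _ ≤ δ := h5
    have hone : ∀ σ : Fin J, (1 - δ) * ((1 / c) *
        ((1 / (L : ℝ)) * ∑ t ∈ Finset.range L, ∑ e ∈ S t, h σ e - δ * W)) ≤
        Ex (fun _ => p) (fun R => optC (fun T : Finset E => ∀ i, (M i).Indep (T : Set E)) w
          (Q' ∩ R)) := by
      intro σ
      refine dense_gen M hL S hSd w hs hΓ hSw hp.le hp1 hδ hδ1 hLd' (u σ) (h σ) hc
        (hhw σ) (hmany σ) hW ?_ hWs.le
      field_simp
    have hsum := Finset.sum_le_sum fun σ (_ : σ ∈ (Finset.univ : Finset (Fin J))) => hone σ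
    rw [Finset.sum_const, Finset.card_univ, Fintype.card_fin, nsmul_eq_mul, ← Finset.mul_sum,
      ← Finset.mul_sum, Finset.sum_sub_distrib, Finset.sum_const, Finset.card_univ,
      Fintype.card_fin, nsmul_eq_mul, ← Finset.mul_sum] at hsum
    have havg2 : J * κ * (L * W) ≤
        ∑ σ : Fin J, ∑ t ∈ Finset.range L, ∑ e ∈ S t, h σ e := by
      rw [hW, Finset.sum_comm, Finset.mul_sum]
      refine Finset.sum_le_sum fun t ht => ?_
      rw [Finset.sum_comm, Finset.mul_sum]
      exact Finset.sum_le_sum fun e he => havg t (Finset.mem_range.1 ht) e he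
    have h3 : J * κ * W ≤
        (1 / (L : ℝ)) * ∑ σ : Fin J, ∑ t ∈ Finset.range L, ∑ e ∈ S t, h σ e := by
      rw [one_div, ← div_eq_inv_mul, le_div_iff₀ hLpos]
      linarith
    have h4 : (1 - δ) * ((1 / c) * (J * κ * W - J * (δ * W))) ≤
        J * Ex (fun _ => p) (fun R => optC (fun T : Finset E => ∀ i, (M i).Indep (T : Set E)) w
          (Q' ∩ R)) := by
      refine le_trans ?_ hsum
      exact mul_le_mul_of_nonneg_left (mul_le_mul_of_nonneg_left (by linarith) hc0) (by linarith)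
    have h5 : (1 - δ) * ((1 / c) * (J * κ * W - J * (δ * W))) =
        J * ((1 - δ) * ((1 / c) * (κ - δ)) * W) := by ring
    rw [h5] at h4
    exact le_of_mul_le_mul_left h4 hJpos

end Pool.Agent.Helper80.WM
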