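import Pool.Agent.Helper80.WM.DenseGen2
import Pool.Agent.Helper11.SX.Charge
import Pool.Agent.Helper68.SX.Pot
import Pool.Agent.Helper55.SX.GridX

/-!
# The block theorem with the exact constant
-/

set_option autoImplicit false

namespace Pool.Agent.Helper80.WM

open Pool.Agent.Helper68.SP Pool.Agent.Helper39.SR Pool.Agent.Helper39.SW

variable {E : Type} [Fintype E] [DecidableEq E]

/-- The block theorem, average form, for a family of grids, quarter loss. -/
theorem dense_avg_q {k : ℕ} (M : Fin k → Matroid E) {L : ℕ} (hL : 1 ≤ L) (S : ℕ → Finset E)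
    (hSi : ∀ t < L, ∀ i, (M i).Indep (S t : Set E))
    (hSd : ∀ s < L, ∀ t < L, s ≠ t → Disjoint (S s) (S t)) (w : E → ℝ)
    {s Γ : ℝ} (hs : 0 < s) (hΓ : 1 ≤ Γ)
    (hSw : ∀ t < L, ∀ e ∈ S t, s ≤ w e ∧ w e ≤ Γ * s)
    {p δ : ℝ} (hp : 0 < p) (hp1 : p ≤ 1) (hδ : 0 < δ) (hδ1 : δ ≤ 1)
    (hLd : (1000000 * Γ ^ 2 / δ ^ 2) * L * Real.exp (-(p ^ 2 * L * (δ / (8 * Γ)))) ≤ 1)
    {J : ℕ} (hJ : 1 ≤ J) (u h : Fin J → E → ℝ) {c κ : ℝ} (hc : 0 < c)
    (hκ : 1 / c * κ ≤ 1)
    (hhw : ∀ σ, ∀ t < L, ∀ e ∈ S t, h σ e ≤ c * w e)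
    (havg : ∀ t < L, ∀ e ∈ S t, J * κ * w e ≤ ∑ σ, h σ e)
    (hmany : ∀ σ, ∀ B : Finset E, (∀ i, (M i).Indep (B : Set E)) → ∀ t < L,
      ∃ F : Finset (Finset E), (∀ X ∈ F, X ⊆ S t ∧ X.Nonempty ∧ AugG M (u σ) B X) ∧
        ((F : Set (Finset E)).PairwiseDisjoint id) ∧
        ∑ e ∈ S t, h σ e ≤ c * (∑ e ∈ B, w e) + 2 * (Γ * s) * F.card) :
    (1 - δ / 4) * ((1 / c) * (κ - δ / 4)) *
        ((1 / (L : ℝ)) * ∑ t ∈ Finset.range L, ∑ e ∈ S t, w e) ≤
      Ex (fun _ => p) (fun R => optC (fun T : Finset E => ∀ i, (M i).Indep (T : Set E)) w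
        ((Finset.range L).biUnion S ∩ R)) := by
  classical
  have hLR : (1 : ℝ) ≤ L := by exact_mod_cast hL
  have hLpos : (0 : ℝ) < L := by linarith
  have hJR : (1 : ℝ) ≤ J := by exact_mod_cast hJ
  have hJpos : (0 : ℝ) < J := by linarith
  have hΓ0 : 0 < Γ := by linarith
  have hδ4 : 0 < δ / 4 := by linarith
  have hδ41 : δ / 4 ≤ 1 := by linarith
  set W : ℝ := (1 / (L : ℝ)) * ∑ t ∈ Finset.range L, ∑ e ∈ S t, w e with hWdef
  have hW : L * W = ∑ t ∈ Finset.range L, ∑ e ∈ S t, w e := by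
    rw [hWdef]
    field_simp
  have hW0 : 0 ≤ W := by
    refine mul_nonneg (by positivity) (Finset.sum_nonneg fun t ht => Finset.sum_nonneg fun e he => ?_)
    exact hs.le.trans (hSw t (Finset.mem_range.1 ht) e he).1
  have hc0 : 0 ≤ 1 / c := by positivity
  rcases le_or_gt W s with hWs | hWs
  · have hLp : Γ / (δ / 4) ≤ p * L := by
      set X : ℝ := p ^ 2 * L * (δ / (8 * Γ)) with hX
      have hX1 : 1 ≤ X := by
        by_contra hlt
        push Not at hlt
        have h1 : Real.exp (-1) ≤ Real.exp (-X) := Real.exp_le_exp.2 (by linarith)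
        have h2 : (1 : ℝ) / 3 ≤ Real.exp (-1) := by
          rw [Real.exp_neg, ← one_div]
          have := Real.exp_one_lt_d9
          exact one_div_le_one_div_of_le (Real.exp_pos 1) (by linarith)
        have h3 : (1 : ℝ) ≤ Γ ^ 2 / δ ^ 2 := by
          rw [le_div_iff₀ (by positivity)]
          have h4 : δ ^ 2 ≤ 1 := pow_le_one₀ hδ.le hδ1
          nlinarith
        have h4 : (1000000 : ℝ) * (1 / 3) ≤ 1000000 * Γ ^ 2 / δ ^ 2 * L * Real.exp (-X) := by
          have h5 : (1000000 : ℝ) * 1 ≤ 1000000 * (Γ ^ 2 / δ ^ 2) :=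
            mul_le_mul_of_nonneg_left h3 (by norm_num)
          have h6 : 1000000 * Γ ^ 2 / δ ^ 2 = 1000000 * (Γ ^ 2 / δ ^ 2) := by ring
          have h7 : (1000000 : ℝ) ≤ 1000000 * Γ ^ 2 / δ ^ 2 * L := by
            rw [h6]
            nlinarith
          exact mul_le_mul h7 (by linarith) (by norm_num) (by linarith)
        linarith
      have h2 : 8 * Γ / δ ≤ p ^ 2 * L := by
        have h3 : p ^ 2 * L = X * (8 * Γ / δ) := by
          rw [hX]
          field_simp
        rw [h3]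
        have h4 : 0 ≤ 8 * Γ / δ := by positivity
        nlinarith
      have h3 : p ^ 2 * L ≤ p * L := by
        refine mul_le_mul_of_nonneg_right ?_ hLpos.le
        nlinarith
      have h4 : Γ / (δ / 4) ≤ 8 * Γ / δ := by
        have h5 : Γ / (δ / 4) = 4 * Γ / δ := by field_simp
        rw [h5, div_le_div_iff_of_pos_right hδ]
        linarith
      linarith
    refine le_trans ?_ (dense_tiny1 M hL S hSi hSd w hs hΓ hSw hp hp1 hδ4 hδ41 hLp hW hWs)
    refine mul_le_mul_of_nonneg_right ?_ hW0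
    have h4 : (1 / c) * (κ - δ / 4) ≤ (1 / c) * κ := mul_le_mul_of_nonneg_left (by linarith) hc0
    have h5 : (1 - δ / 4) * ((1 / c) * (κ - δ / 4)) ≤ (1 - δ / 4) * 1 :=
      mul_le_mul_of_nonneg_left (by linarith) (by linarith)
    linarith
  · set Q' : Finset E := (Finset.range L).biUnion S with hQ'
    have hLd' : Real.exp 1 * L * Real.exp (-(p ^ 2 * L * (δ / 4) / (2 * Γ))) ≤ δ / 4 := by
      have hexp1 : Real.exp 1 ≤ 3 := by
        have := Real.exp_one_lt_d9
        linarith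
      have h1 : Real.exp (-(p ^ 2 * L * (δ / 4) / (2 * Γ))) =
          Real.exp (-(p ^ 2 * L * (δ / (8 * Γ)))) := by
        congr 2
        field_simp
        ring
      rw [h1]
      set Z : ℝ := L * Real.exp (-(p ^ 2 * L * (δ / (8 * Γ)))) with hZ
      have hZ0 : 0 ≤ Z := by positivity
      have h4 : (1000000 * Γ ^ 2 / δ ^ 2) * Z ≤ 1 := by
        rw [hZ, ← mul_assoc]
        exact hLd
      have h5 : 12 * Z ≤ δ := by
        have h6 : 12 / δ ≤ 1000000 * Γ ^ 2 / δ ^ 2 := by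
          rw [div_le_div_iff₀ hδ (by positivity)]
          have h7 : (1 : ℝ) ≤ Γ ^ 2 := by nlinarith
          nlinarith [mul_pos hδ hδ]
        have h7 : 12 / δ * Z ≤ 1 := (mul_le_mul_of_nonneg_right h6 hZ0).trans h4
        have h8 : 12 * Z = 12 / δ * Z * δ := by field_simp
        rw [h8]
        nlinarith
      calc Real.exp 1 * L * Real.exp (-(p ^ 2 * L * (δ / (8 * Γ))))
          = Real.exp 1 * Z := by rw [hZ]; ring
        _ ≤ 3 * Z := mul_le_mul_of_nonneg_right hexp1 hZ0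
        _ ≤ δ / 4 := by linarith
    have hone : ∀ σ : Fin J, (1 - δ / 4) * ((1 / c) *
        ((1 / (L : ℝ)) * ∑ t ∈ Finset.range L, ∑ e ∈ S t, h σ e - δ / 4 * W)) ≤
        Ex (fun _ => p) (fun R => optC (fun T : Finset E => ∀ i, (M i).Indep (T : Set E)) w
          (Q' ∩ R)) := by
      intro σ
      refine dense_gen M hL S hSd w hs hΓ hSw hp.le hp1 hδ4 hδ41 hLd' (u σ) (h σ) hc
        (hhw σ) (hmany σ) hW ?_ hWs.le
      field_simp
    have hsum := Finset.sum_le_sum fun σ (_ : σ ∈ (Finset.univ : Finset (Fin J))) => hone σ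
    rw [Finset.sum_const, Finset.card_univ, Fintype.card_fin, nsmul_eq_mul, ← Finset.mul_sum,
      ← Finset.mul_sum, Finset.sum_sub_distrib, Finset.sum_const, Finset.card_univ,
      Fintype.card_fin, nsmul_eq_mul, ← Finset.mul_sum] at hsum
    have havg2 : J * κ * (L * W) ≤
        ∑ σ : Fin J, ∑ t ∈ Finset.range L, ∑ e ∈ S t, h σ e := by
      rw [hW, Finset.sum_comm, Finset.mul_sum]
      refine Finset.sum_le_sum fun t ht => ?_
      rw [Finset.sum_comm, Finset.mul_sum]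
      exact Finset.sum_le_sum fun e he => havg t (Finset.mem_range.1 ht) e he
    have h3 : J * κ * W ≤
        (1 / (L : ℝ)) * ∑ σ : Fin J, ∑ t ∈ Finset.range L, ∑ e ∈ S t, h σ e := by
      rw [one_div, ← div_eq_inv_mul, le_div_iff₀ hLpos]
      linarith
    have h4 : (1 - δ / 4) * ((1 / c) * (J * κ * W - J * (δ / 4 * W))) ≤
        J * Ex (fun _ => p) (fun R => optC (fun T : Finset E => ∀ i, (M i).Indep (T : Set E)) w
          (Q' ∩ R)) := by
      refine le_trans ?_ hsum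
      exact mul_le_mul_of_nonneg_left (mul_le_mul_of_nonneg_left (by linarith) hc0) (by linarith)
    have h5 : (1 - δ / 4) * ((1 / c) * (J * κ * W - J * (δ / 4 * W))) =
        J * ((1 - δ / 4) * ((1 / c) * (κ - δ / 4)) * W) := by ring
    rw [h5] at h4
    exact le_of_mul_le_mul_left h4 hJpos

/-- The block theorem with the constant `log₂ (1 + 1 / k)`. -/
theorem block_x {k : ℕ} (hk : 1 ≤ k) (M : Fin k → Matroid E)
    (hE : ∀ i, (M i).E = Set.univ) {L : ℕ} (hL : 1 ≤ L) (S : ℕ → Finset E)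
    (hSi : ∀ t < L, ∀ i, (M i).Indep (S t : Set E))
    (hSd : ∀ s < L, ∀ t < L, s ≠ t → Disjoint (S s) (S t)) (w : E → ℝ)
    {s Γ : ℝ} (hs : 0 < s) (hΓ : 1 ≤ Γ)
    (hSw : ∀ t < L, ∀ e ∈ S t, s ≤ w e ∧ w e ≤ Γ * s)
    {p δ : ℝ} (hp : 0 < p) (hp1 : p ≤ 1) (hδ : 0 < δ) (hδ1 : δ ≤ 1)
    (hLd : (1000000 * Γ ^ 2 / δ ^ 2) * L * Real.exp (-(p ^ 2 * L * (δ / (8 * Γ)))) ≤ 1) :
    (1 - δ) * (Real.logb 2 (1 + 1 / (k : ℝ)) - δ) *
        ((1 / (L : ℝ)) * ∑ t ∈ Finset.range L, ∑ e ∈ S t, w e) ≤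
      Ex (fun _ => p) (fun R => optC (fun T : Finset E => ∀ i, (M i).Indep (T : Set E)) w
        ((Finset.range L).biUnion S ∩ R)) := by
  classical
  have hrate : IsRate (fun _ : E => p) := fun _ => ⟨hp.le, hp1⟩
  have hkR : (1 : ℝ) ≤ k := by exact_mod_cast hk
  have hk0 : (0 : ℝ) < k := by linarith
  have hC0 : (fun T : Finset E => ∀ i, (M i).Indep (T : Set E)) ∅ := fun i => by simp
  set a : ℝ := Real.logb 2 (1 + 1 / (k : ℝ)) with ha
  have hinv : 1 / (k : ℝ) ≤ 1 := by rw [div_le_one hk0]; exact hkR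
  have hinv0 : 0 < 1 / (k : ℝ) := by positivity
  have ha0 : 0 < a := Real.logb_pos (by norm_num) (by linarith)
  have ha1 : a ≤ 1 := by
    rw [ha]
    have h1 : Real.logb 2 (1 + 1 / (k : ℝ)) ≤ Real.logb 2 2 :=
      Real.logb_le_logb_of_le (by norm_num) (by linarith) (by linarith)
    rwa [Real.logb_self_eq_one (by norm_num)] at h1
  have hW0 : 0 ≤ (1 / (L : ℝ)) * ∑ t ∈ Finset.range L, ∑ e ∈ S t, w e := by
    refine mul_nonneg (by positivity) (Finset.sum_nonneg fun t ht => Finset.sum_nonneg fun e he => ?_)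
    exact hs.le.trans (hSw t (Finset.mem_range.1 ht) e he).1
  rcases le_or_gt a δ with haδ | haδ
  · refine le_trans ?_ (Ex_nonneg hrate fun R => opt_nonneg hC0 _)
    exact mul_nonpos_of_nonpos_of_nonneg
      (mul_nonpos_of_nonneg_of_nonpos (by linarith) (by linarith)) hW0
  have hsΓ : s ≤ Γ * s := by nlinarith
  obtain ⟨w', hw'⟩ : ∃ w' : E → ℝ, ∀ e, w' e = max s (min (w e) (Γ * s)) := ⟨_, fun _ => rfl⟩
  have hw1 : ∀ e, s ≤ w' e ∧ w' e ≤ Γ * s := by
    intro e
    rw [hw']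
    exact ⟨le_max_left _ _, max_le hsΓ (min_le_right _ _)⟩
  have hww : ∀ t < L, ∀ e ∈ S t, w' e = w e := by
    intro t ht e he
    obtain ⟨h1, h2⟩ := hSw t ht e he
    rw [hw', min_eq_left h2, max_eq_right h1]
  have hlam0 : 0 ≤ a - δ / 2 := by linarith
  obtain ⟨J, hJ, hgr⟩ := Pool.Agent.Helper55.SX.gridsX k hk hlam0
    (show a - δ / 2 < Real.logb 2 (1 + 1 / (k : ℝ)) by rw [← ha]; linarith)
  obtain ⟨cls, b, hb0, hb, hbw, havg⟩ := hgr w' (Finset.univ : Finset E) hs
    (fun e _ => hw1 e)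
  have hbw' : ∀ t e, b t (cls t e) ≤ w' e := fun t e => hbw t e (Finset.mem_univ e)
  choose u hu0 hu1 hu2 hu3 using fun t : Fin J => Pool.Agent.Helper68.SX.exists_pot (cls t) w'
  have hkm : 0 ≤ ((k : ℝ) - 1) / 2 := by linarith
  have hmain := dense_avg_q M hL S hSi hSd w' hs hΓ (fun t _ e _ => hw1 e) hp hp1 hδ hδ1 hLd
    (J := J) hJ u
    (fun t e => min (b t (cls t e)) ((k : ℝ) / 2 * w' e - ((k : ℝ) - 1) / 2 * b t (cls t e)))
    (c := (k : ℝ) / 2) (κ := (k : ℝ) / 2 * (a - δ / 2)) (by positivity)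
    (by
      have h1 : 1 / ((k : ℝ) / 2) * ((k : ℝ) / 2 * (a - δ / 2)) = a - δ / 2 := by
        field_simp
      rw [h1]
      linarith)
    (fun σ t ht e he => by
      refine (min_le_right _ _).trans ?_
      have h1 : 0 ≤ ((k : ℝ) - 1) / 2 * b σ (cls σ e) := mul_nonneg hkm (hb0 _ _).le
      linarith)
    (fun t ht e he => havg e (Finset.mem_univ e))
    (fun σ B hB t ht => by
      refine Pool.Agent.Helper11.SX.many_gen M hE (cls σ) (u σ)
        (fun e => min (b σ (cls σ e)) ((k : ℝ) / 2 * w' e - ((k : ℝ) - 1) / 2 * b σ (cls σ e)))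
        w' (fun e => b σ (cls σ e) / 2) ((k : ℝ) / 2) (hu0 σ) (hu1 σ) ?_ ?_ ?_ ?_ ?_ ?_ ?_ ?_ ?_
        hB (S t).card (S t) rfl (hSi t ht) ?_
      · intro e e' y h1 h2
        have := hu3 σ y e e' h1 h2
        linarith
      · intro e y h1 h2
        have := hu2 σ y e h1 h2
        linarith
      · intro e
        refine le_min (hb0 _ _).le ?_
        have h1 := hbw' σ e
        have h2 := hb0 σ (cls σ e)
        nlinarith
      · intro e
        have := hb0 σ (cls σ e)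
        linarith
      · intro e y h1
        refine (min_le_left _ _).trans ?_
        have := hb σ _ _ h1
        linarith
      · intro e y h1
        refine (min_le_left _ _).trans ?_
        rw [h1]
        linarith
      · intro e y h1 h2
        have h3 : min (b σ (cls σ e)) ((k : ℝ) / 2 * w' e - ((k : ℝ) - 1) / 2 * b σ (cls σ e)) ≤
          (k : ℝ) / 2 * w' e - ((k : ℝ) - 1) / 2 * b σ (cls σ e) := min_le_right _ _
        have h4 : (k : ℝ) / 2 * w' e ≤ (k : ℝ) / 2 * w' y :=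
          mul_le_mul_of_nonneg_left h2 (by positivity)
        have h5 : ((k : ℝ) - 1) * (b σ (cls σ y) / 2) = ((k : ℝ) - 1) / 2 * b σ (cls σ e) := by
          rw [h1]
          ring
        rw [h5]
        linarith
      · intro y
        have h1 := hbw' σ y
        have h2 : (k : ℝ) * (b σ (cls σ y) / 2) = (k : ℝ) / 2 * b σ (cls σ y) := by ring
        rw [h2]
        exact mul_le_mul_of_nonneg_left h1 (by positivity)
      · intro e
        refine (min_le_right _ _).trans ?_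
        have h1 : 0 ≤ ((k : ℝ) - 1) / 2 * b σ (cls σ e) := mul_nonneg hkm (hb0 _ _).le
        linarith
      · intro e _
        exact (min_le_left _ _).trans ((hbw' σ e).trans (hw1 e).2))
  have hsum : ∑ t ∈ Finset.range L, ∑ e ∈ S t, w' e =
      ∑ t ∈ Finset.range L, ∑ e ∈ S t, w e :=
    Finset.sum_congr rfl fun t ht => Finset.sum_congr rfl fun e he =>
      hww t (Finset.mem_range.1 ht) e he
  have hopt : ∀ R : Finset E,
      optC (fun T : Finset E => ∀ i, (M i).Indep (T : Set E)) w'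
        ((Finset.range L).biUnion S ∩ R) ≤
      optC (fun T : Finset E => ∀ i, (M i).Indep (T : Set E)) w
        ((Finset.range L).biUnion S ∩ R) := by
    intro R
    refine opt_le hC0 fun T hT1 hT2 => ?_
    have h1 : ∑ e ∈ T, w' e = ∑ e ∈ T, w e := by
      refine Finset.sum_congr rfl fun e he => ?_
      have h2 := (Finset.mem_inter.1 (hT1 he)).1
      rw [Finset.mem_biUnion] at h2
      obtain ⟨t, ht, het⟩ := h2
      exact hww t (Finset.mem_range.1 ht) e het
    rw [h1]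
    exact le_opt (Com := fun T : Finset E => ∀ i, (M i).Indep (T : Set E)) hT1 hT2
  rw [hsum] at hmain
  refine le_trans ?_ (hmain.trans (Ex_mono (fun _ => ⟨hp.le, hp1⟩) hopt))
  refine mul_le_mul_of_nonneg_right ?_ hW0
  have h1 : 1 / ((k : ℝ) / 2) * ((k : ℝ) / 2 * (a - δ / 2) - δ / 4) =
      a - δ / 2 - δ / 2 * (1 / (k : ℝ)) := by
    field_simp
    ring
  rw [h1]
  have h2 : a - δ ≤ a - δ / 2 - δ / 2 * (1 / (k : ℝ)) := by nlinarith
  calc (1 - δ) * (a - δ) ≤ (1 - δ / 4) * (a - δ) :=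
        mul_le_mul_of_nonneg_right (by linarith) (by linarith)
    _ ≤ (1 - δ / 4) * (a - δ / 2 - δ / 2 * (1 / (k : ℝ))) :=
        mul_le_mul_of_nonneg_left h2 (by linarith)

end Pool.Agent.Helper80.WM
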