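import Pool.Agent.Helper39.SR.Unit

/-!
# Unit weights: layers of maximum common independent sets, exchanges of bounded size

The sparsifier is the union of `L` layers of maximum common independent sets. If every common
independent set `B` with `K * |B| < |S|` can be enlarged with at most `s` elements of `S`, the
ratio is `(1 - ε) / (1 + K)` with degree `C / p ^ s * (1 + log (1 / p))`.
-/

set_option autoImplicit false

namespace Pool.Agent.Helper80.WM.UnitS

open Pool.Agent.Helper68.SP Pool.Agent.Helper39.SR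

/-- The local search property: `S` enlarges `B` with at most `s` new elements. -/
def LSP {E : Type} [DecidableEq E] {k : ℕ} (M : Fin k → Matroid E) (K : ℝ) (s : ℕ) : Prop :=
  ∀ B S : Finset E, (∀ i, (M i).Indep (B : Set E)) → (∀ i, (M i).Indep (S : Set E)) →
    K * (B.card : ℝ) < (S.card : ℝ) →
    ∃ X : Finset E, X ⊆ S \ B ∧ X.card ≤ s ∧ ∃ B' : Finset E, B' ⊆ B ∪ X ∧
      (∀ i, (M i).Indep (B' : Set E)) ∧ B.card < B'.card

variable {E : Type} [Fintype E] [DecidableEq E]

/-- `X` has at most `s` elements and enlarges `B`. -/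
def AugS {k : ℕ} (M : Fin k → Matroid E) (s : ℕ) (B X : Finset E) : Prop :=
  X.card ≤ s ∧ ∃ B' : Finset E, B' ⊆ B ∪ X ∧ (∀ i, (M i).Indep (B' : Set E)) ∧
    B.card < B'.card

omit [Fintype E] in
/-- Many disjoint augmenting sets. -/
theorem many_augS {k : ℕ} (M : Fin k → Matroid E) {K : ℝ} {s : ℕ} (hLS : LSP M K s)
    {B : Finset E} (hB : ∀ i, (M i).Indep (B : Set E)) (n : ℕ) :
    ∀ S : Finset E, S.card = n → (∀ i, (M i).Indep (S : Set E)) →
    ∃ F : Finset (Finset E), (∀ X ∈ F, X ⊆ S ∧ X.Nonempty ∧ AugS M s B X) ∧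
      ((F : Set (Finset E)).PairwiseDisjoint id) ∧
      (S.card : ℝ) ≤ s * F.card + K * B.card := by
  classical
  induction n using Nat.strong_induction_on with
  | _ n ih =>
    intro S hSn hS
    by_cases hlt : K * (B.card : ℝ) < (S.card : ℝ)
    · obtain ⟨X, hX1, hX2, B', hB'1, hB'2, hB'3⟩ := hLS B S hB hS hlt
      have hXne : X.Nonempty := by
        rw [Finset.nonempty_iff_ne_empty]
        rintro rfl
        rw [Finset.union_empty] at hB'1
        exact absurd (Finset.card_le_card hB'1) (not_le.2 hB'3)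
      have hXS : X ⊆ S := hX1.trans Finset.sdiff_subset
      have hcard : (S \ X).card + X.card = S.card := Finset.card_sdiff_add_card_eq_card hXS
      have hXpos : 0 < X.card := Finset.card_pos.2 hXne
      obtain ⟨F, hF1, hF2, hF3⟩ := ih (S \ X).card (by omega) (S \ X) rfl
        (fun i => (hS i).subset (Finset.coe_subset.2 Finset.sdiff_subset))
      have hXF : X ∉ F := by
        intro h
        obtain ⟨e, he⟩ := hXne
        exact (Finset.mem_sdiff.1 ((hF1 X h).1 he)).2 he
      refine ⟨insert X F, ?_, ?_, ?_⟩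
      · intro Y hY
        rcases Finset.mem_insert.1 hY with rfl | hY
        · exact ⟨hXS, hXne, hX2, B', hB'1, hB'2, hB'3⟩
        · exact ⟨(hF1 Y hY).1.trans Finset.sdiff_subset, (hF1 Y hY).2⟩
      · rw [Finset.coe_insert]
        refine hF2.insert fun Y hY _ => ?_
        rw [Finset.disjoint_left]
        intro e he he'
        exact (Finset.mem_sdiff.1 ((hF1 Y (Finset.mem_coe.1 hY)).1 he')).2 he
      · rw [Finset.card_insert_of_notMem hXF]
        have h1 : ((S \ X).card : ℝ) + X.card = S.card := by exact_mod_cast hcard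
        have h2 : (X.card : ℝ) ≤ s := by exact_mod_cast hX2
        push_cast
        linarith
    · push Not at hlt
      exact ⟨∅, fun X hX => absurd hX (Finset.notMem_empty X), by simp, by simpa using hlt⟩

/-- The probability that the random set contains none of disjoint sets of size at most `s`. -/
theorem prob_noneS {p : ℝ} (hp : 0 ≤ p) (hp1 : p ≤ 1) (s : ℕ) (F : Finset (Finset E)) :
    ((F : Set (Finset E)).PairwiseDisjoint id) → (∀ X ∈ F, X.card ≤ s) →
    Ex (fun _ => p) (fun R => if ∀ X ∈ F, ¬ X ⊆ R then (1 : ℝ) else 0) ≤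
      (1 - p ^ s) ^ F.card := by
  classical
  have hrate : IsRate (fun _ : E => p) := fun _ => ⟨hp, hp1⟩
  have hp2 : p ^ s ≤ 1 := pow_le_one₀ hp hp1
  induction F using Finset.induction_on with
  | empty =>
    intro _ _
    simp [Ex_const]
  | insert X F hX ih =>
    intro hd h2
    have hXd : ∀ Y ∈ F, Disjoint X Y := by
      intro Y hY
      have hne : X ≠ Y := fun h => hX (h ▸ hY)
      exact hd (Finset.mem_coe.2 (Finset.mem_insert_self X F))
        (Finset.mem_coe.2 (Finset.mem_insert_of_mem hY)) hne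
    have h1 : ∀ R : Finset E, (if ∀ Y ∈ insert X F, ¬ Y ⊆ R then (1 : ℝ) else 0) =
        (if X ⊆ R then (0 : ℝ) else 1) * (if ∀ Y ∈ F, ¬ Y ⊆ R then (1 : ℝ) else 0) := by
      intro R
      by_cases hXR : X ⊆ R
      · rw [if_pos hXR, zero_mul, if_neg]
        exact fun h => h X (Finset.mem_insert_self X F) hXR
      · rw [if_neg hXR, one_mul]
        refine if_congr ?_ rfl rfl
        simp [hXR]
    rw [Ex_congr _ h1, Ex_mul_of_indep (fun _ => p) X]
    · rw [Finset.card_insert_of_notMem hX, pow_succ, mul_comm]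
      have h3 : Ex (fun _ => p) (fun R => if X ⊆ R then (0 : ℝ) else 1) ≤ 1 - p ^ s := by
        have h4 : ∀ R : Finset E, (if X ⊆ R then (0 : ℝ) else 1) =
            1 - (if X ⊆ R then (1 : ℝ) else 0) := by
          intro R
          split_ifs <;> norm_num
        rw [Ex_congr _ h4, Ex_sub, Ex_const, Ex_subset, Finset.prod_const]
        have h5 : p ^ s ≤ p ^ X.card :=
          pow_le_pow_of_le_one hp hp1 (h2 X (Finset.mem_insert_self X F))
        linarith
      refine mul_le_mul (ih ?_ ?_) h3 ?_ ?_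
      · exact hd.subset (by rw [Finset.coe_insert]; exact Set.subset_insert _ _)
      · exact fun Y hY => h2 Y (Finset.mem_insert_of_mem hY)
      · exact Ex_nonneg hrate fun S => by split_ifs <;> norm_num
      · exact pow_nonneg (by linarith) _
    · intro S T hST
      have h3 : X ⊆ S ↔ X ⊆ T := by
        constructor
        · intro h e he
          have : e ∈ T ∩ X := hST ▸ Finset.mem_inter.2 ⟨h he, he⟩
          exact (Finset.mem_inter.1 this).1
        · intro h e he
          have : e ∈ S ∩ X := hST.symm ▸ Finset.mem_inter.2 ⟨h he, he⟩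
          exact (Finset.mem_inter.1 this).1
      exact if_congr h3 rfl rfl
    · intro S T hST
      refine if_congr (forall₂_congr fun Y hY => not_congr ?_) rfl rfl
      have hYX := hXd Y hY
      constructor
      · intro h e he
        have : e ∈ T \ X := hST ▸ Finset.mem_sdiff.2
          ⟨h he, fun heX => Finset.disjoint_left.1 hYX heX he⟩
        exact (Finset.mem_sdiff.1 this).1
      · intro h e he
        have : e ∈ S \ X := hST.symm ▸ Finset.mem_sdiff.2
          ⟨h he, fun heX => Finset.disjoint_left.1 hYX heX he⟩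
        exact (Finset.mem_sdiff.1 this).1

/-- Many disjoint common independent sets. -/
theorem denseS {k : ℕ} (M : Fin k → Matroid E) {K : ℝ} (hK : 1 ≤ K) {s : ℕ} (hs : 1 ≤ s)
    (hLS : LSP M K s)
    {m L : ℕ} (hm : 1 ≤ m) (hL : 1 ≤ L) (S : ℕ → Finset E)
    (hSi : ∀ t < L, ∀ i, (M i).Indep (S t : Set E)) (hSc : ∀ t < L, m ≤ (S t).card)
    (hSd : ∀ s < L, ∀ t < L, s ≠ t → Disjoint (S s) (S t)) {p δ : ℝ} (hp : 0 ≤ p)
    (hp1 : p ≤ 1) (hδ : 0 < δ) (hδ1 : δ ≤ 1)
    (hLd : Real.exp 1 * L * Real.exp (-(p ^ s * L * δ / s)) ≤ δ) (Q : Finset E)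
    (hQ : ∀ t < L, S t ⊆ Q) :
    (1 - δ) ^ 2 * (m / K) ≤ Ex (fun _ => p) (fun R =>
      optC (fun S : Finset E => ∀ i, (M i).Indep (S : Set E)) (fun _ => 1) (Q ∩ R)) := by
  classical
  have hrate : IsRate (fun _ : E => p) := fun _ => ⟨hp, hp1⟩
  set Com : Finset E → Prop := fun S => ∀ i, (M i).Indep (S : Set E) with hCom
  have hC0 : Com ∅ := fun i => by simp
  have hmR : (1 : ℝ) ≤ m := by exact_mod_cast hm
  have hLR : (1 : ℝ) ≤ L := by exact_mod_cast hL
  have hsR : (1 : ℝ) ≤ s := by exact_mod_cast hs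
  have hK0 : (0 : ℝ) < K := by linarith
  -- sets of size exactly m
  have hS' : ∀ t, ∃ S' : Finset E, t < L → S' ⊆ S t ∧ S'.card = m := by
    intro t
    by_cases ht : t < L
    · obtain ⟨S', h1, h2⟩ := Finset.exists_subset_card_eq (hSc t ht)
      exact ⟨S', fun _ => ⟨h1, h2⟩⟩
    · exact ⟨∅, fun h => absurd h ht⟩
  choose S' hS' using hS'
  let Q' : Finset E := (Finset.range L).biUnion S'
  have hS'd : ∀ s < L, ∀ t < L, s ≠ t → Disjoint (S' s) (S' t) := fun s hs t ht hne =>
    (hSd s hs t ht hne).mono (hS' s hs).1 (hS' t ht).1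
  have hQ'Q : Q' ⊆ Q := by
    rw [Finset.biUnion_subset]
    exact fun t ht => (hS' t (Finset.mem_range.1 ht)).1.trans (hQ t (Finset.mem_range.1 ht))
  have hQ'c : Q'.card = L * m := by
    rw [Finset.card_biUnion]
    · rw [Finset.sum_congr rfl fun t ht => (hS' t (Finset.mem_range.1 ht)).2, Finset.sum_const,
        Finset.card_range, smul_eq_mul]
    · exact fun s hs t ht hne => hS'd s (Finset.mem_range.1 hs) t (Finset.mem_range.1 ht) hne
  set a : ℝ := (1 - δ) * (m / K) with ha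
  have ha0 : 0 ≤ a := mul_nonneg (by linarith) (by positivity)
  have hak : a * K = (1 - δ) * m := by
    rw [ha]
    field_simp
  have ham : a ≤ m := by
    have h1 : a * K ≤ m * K := by
      rw [hak]
      nlinarith
    exact le_of_mul_le_mul_right h1 hK0
  -- the families of augmentations
  have hfam : ∀ B : Finset E, ∃ F : Finset (Finset E), Com B → (B.card : ℝ) < a →
      (∀ X ∈ F, X ⊆ Q' ∧ AugS M s B X) ∧ ((F : Set (Finset E)).PairwiseDisjoint id) ∧
      (L : ℝ) * δ * m / s ≤ F.card := by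
    intro B
    by_cases hB : Com B ∧ (B.card : ℝ) < a
    · obtain ⟨hB1, hB2⟩ := hB
      have h1 : ∀ t, ∃ F : Finset (Finset E), t < L →
          (∀ X ∈ F, X ⊆ S' t ∧ X.Nonempty ∧ AugS M s B X) ∧
          ((F : Set (Finset E)).PairwiseDisjoint id) ∧
          (m : ℝ) ≤ s * F.card + K * B.card := by
        intro t
        by_cases ht : t < L
        · obtain ⟨F, hF1, hF2, hF3⟩ := many_augS M hLS hB1 m (S' t) (hS' t ht).2
            (fun i => (hSi t ht i).subset (Finset.coe_subset.2 (hS' t ht).1))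
          rw [(hS' t ht).2] at hF3
          exact ⟨F, fun _ => ⟨hF1, hF2, hF3⟩⟩
        · exact ⟨∅, fun h => absurd h ht⟩
      choose F hF using h1
      refine ⟨(Finset.range L).biUnion F, fun _ _ => ⟨?_, ?_, ?_⟩⟩
      · intro X hX
        rw [Finset.mem_biUnion] at hX
        obtain ⟨t, ht, hXt⟩ := hX
        have ht' := Finset.mem_range.1 ht
        have h2 := (hF t ht').1 X hXt
        exact ⟨h2.1.trans (Finset.subset_biUnion_of_mem S' ht), h2.2.2⟩
      · intro X hX Y hY hne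
        rw [Finset.mem_coe, Finset.mem_biUnion] at hX hY
        obtain ⟨s, hs, hXs⟩ := hX
        obtain ⟨t, ht, hYt⟩ := hY
        have hs' := Finset.mem_range.1 hs
        have ht' := Finset.mem_range.1 ht
        by_cases hst : s = t
        · subst hst
          exact (hF s hs').2.1 (Finset.mem_coe.2 hXs) (Finset.mem_coe.2 hYt) hne
        · exact (hS'd s hs' t ht' hst).mono ((hF s hs').1 X hXs).1 ((hF t ht').1 Y hYt).1
      · have hcard : ((Finset.range L).biUnion F).card = ∑ t ∈ Finset.range L, (F t).card := by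
          refine Finset.card_biUnion fun s hs t ht hst => ?_
          have hs' := Finset.mem_range.1 hs
          have ht' := Finset.mem_range.1 ht
          rw [Function.onFun, Finset.disjoint_left]
          intro X hXs hXt
          obtain ⟨e, he⟩ := ((hF s hs').1 X hXs).2.1
          exact Finset.disjoint_left.1 (hS'd s hs' t ht' hst) (((hF s hs').1 X hXs).1 he)
            (((hF t ht').1 X hXt).1 he)
        rw [hcard]
        push_cast
        have h3 : ∀ t ∈ Finset.range L, δ * m / s ≤ ((F t).card : ℝ) := by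
          intro t ht
          have h5 := (hF t (Finset.mem_range.1 ht)).2.2
          have h6 : (B.card : ℝ) * K ≤ a * K :=
            mul_le_mul_of_nonneg_right hB2.le (by linarith)
          rw [hak] at h6
          rw [div_le_iff₀ (by linarith)]
          nlinarith
        have h7 := Finset.sum_le_sum h3
        rw [Finset.sum_const, Finset.card_range, nsmul_eq_mul] at h7
        refine le_trans (le_of_eq ?_) h7
        ring
    · exact ⟨∅, fun h1 h2 => absurd ⟨h1, h2⟩ hB⟩
  choose F hF using hfam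
  let BB : Finset (Finset E) := Q'.powerset.filter fun B => Com B ∧ (B.card : ℝ) < a
  let Gd : Finset E → Prop := fun R => ∀ B ∈ BB, ¬ ∀ X ∈ F B, ¬ X ⊆ R
  have hgood : ∀ R, Gd R → a ≤ optC Com (fun _ => 1) (Q ∩ R) := by
    intro R hG
    obtain ⟨B, hB1, hB2, hB3⟩ := opt_attained (w := fun _ => (1 : ℝ)) hC0 (Q' ∩ R)
    have hB4 : (B.card : ℝ) = optC Com (fun _ => 1) (Q' ∩ R) := by
      rw [← hB3, Finset.sum_const, nsmul_eq_mul, mul_one]
    have h1 : a ≤ B.card := by
      by_contra hlt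
      push Not at hlt
      have hBB : B ∈ BB := Finset.mem_filter.2
        ⟨Finset.mem_powerset.2 (hB1.trans Finset.inter_subset_left), hB2, hlt⟩
      have h2 := hG B hBB
      push Not at h2
      obtain ⟨X, hX, hXR⟩ := h2
      obtain ⟨hX1, -, B', hB'1, hB'2, hB'3⟩ := (hF B hB2 hlt).1 X hX
      have h3 : B' ⊆ Q' ∩ R := by
        refine hB'1.trans (Finset.union_subset hB1 (Finset.subset_inter hX1 hXR))
      have h4 := le_opt (w := fun _ => (1 : ℝ)) h3 (show Com B' from hB'2)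
      rw [Finset.sum_const, nsmul_eq_mul, mul_one, ← hB4] at h4
      have h5 : (B.card : ℝ) < B'.card := by exact_mod_cast hB'3
      linarith
    rw [hB4] at h1
    exact h1.trans (opt_mono hC0 (Finset.inter_subset_inter_right hQ'Q))
  have hp2 : p ^ s ≤ 1 := pow_le_one₀ hp hp1
  have hps0 : 0 ≤ p ^ s := pow_nonneg hp s
  have hcount : (BB.card : ℝ) ≤ (Real.exp 1 * L) ^ m := by
    have h1 : (BB.card : ℝ) * (1 / (L : ℝ)) ^ m ≤ Real.exp 1 ^ m := by
      calc (BB.card : ℝ) * (1 / (L : ℝ)) ^ m = ∑ _B ∈ BB, (1 / (L : ℝ)) ^ m := by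
            rw [Finset.sum_const, nsmul_eq_mul]
        _ ≤ ∑ B ∈ BB, (1 / (L : ℝ)) ^ B.card := by
            refine Finset.sum_le_sum fun B hB => ?_
            have h2 : (B.card : ℝ) ≤ m := ((Finset.mem_filter.1 hB).2.2.le).trans ham
            have h3 : B.card ≤ m := by exact_mod_cast h2
            refine pow_le_pow_of_le_one (by positivity) ?_ h3
            rw [div_le_one (by linarith)]
            exact hLR
        _ ≤ ∑ B ∈ Q'.powerset, (1 / (L : ℝ)) ^ B.card :=
            Finset.sum_le_sum_of_subset_of_nonneg (Finset.filter_subset _ _)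
              fun B _ _ => by positivity
        _ = ∑ B ∈ Q'.powerset, (1 / (L : ℝ)) ^ B.card * 1 ^ (Q'.card - B.card) := by
            simp
        _ = (1 / (L : ℝ) + 1) ^ Q'.card := Finset.sum_pow_mul_eq_add_pow _ _ _
        _ ≤ Real.exp (1 / (L : ℝ)) ^ Q'.card :=
            pow_le_pow_left₀ (by positivity) (Real.add_one_le_exp _) _
        _ = Real.exp 1 ^ m := by
            rw [hQ'c, ← Real.exp_nat_mul, ← Real.exp_nat_mul]
            congr 1
            push_cast
            field_simp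
    have h2 : (0 : ℝ) < (L : ℝ) ^ m := by positivity
    rw [mul_pow]
    have h3 : (BB.card : ℝ) = (BB.card : ℝ) * (1 / (L : ℝ)) ^ m * (L : ℝ) ^ m := by
      rw [one_div, inv_pow]
      field_simp
    rw [h3]
    exact mul_le_mul_of_nonneg_right h1 h2.le
  have hprob : 1 - δ ≤ Ex (fun _ => p) (fun R => if Gd R then (1 : ℝ) else 0) := by
    have h1 : ∀ R, (1 : ℝ) - ∑ B ∈ BB, (if ∀ X ∈ F B, ¬ X ⊆ R then (1 : ℝ) else 0) ≤
        if Gd R then (1 : ℝ) else 0 := by
      intro R
      have h0 : ∀ B ∈ BB, (0 : ℝ) ≤ if ∀ X ∈ F B, ¬ X ⊆ R then (1 : ℝ) else 0 := by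
        intro B _
        split_ifs <;> norm_num
      by_cases h : Gd R
      · rw [if_pos h]
        have := Finset.sum_nonneg h0
        linarith
      · rw [if_neg h]
        simp only [Gd, not_forall, not_not] at h
        obtain ⟨B, hB, hBX⟩ := h
        have h3 := Finset.single_le_sum (f := fun B => if ∀ X ∈ F B, ¬ X ⊆ R then (1 : ℝ) else 0)
          h0 hB
        have h4 : (if ∀ X ∈ F B, ¬ X ⊆ R then (1 : ℝ) else 0) = 1 := if_pos (by
          simpa using hBX)
        simp only [h4] at h3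
        linarith
    refine le_trans ?_ (Ex_mono hrate h1)
    rw [Ex_sub, Ex_const, Ex_sum]
    have h2 : ∀ B ∈ BB, Ex (fun _ => p) (fun R => if ∀ X ∈ F B, ¬ X ⊆ R then (1 : ℝ) else 0) ≤
        Real.exp (-(p ^ s * L * δ / s)) ^ m := by
      intro B hB
      obtain ⟨-, hB1, hB2⟩ := Finset.mem_filter.1 hB
      obtain ⟨hF1, hF2, hF3⟩ := hF B hB1 hB2
      refine (prob_noneS hp hp1 s (F B) hF2 fun X hX => (hF1 X hX).2.1).trans ?_
      have h3 : 1 - p ^ s ≤ Real.exp (-(p ^ s)) := by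
        have := Real.add_one_le_exp (-(p ^ s))
        linarith
      calc (1 - p ^ s) ^ (F B).card ≤ Real.exp (-(p ^ s)) ^ (F B).card :=
            pow_le_pow_left₀ (by linarith) h3 _
        _ = Real.exp (-(p ^ s * (F B).card)) := by
            rw [← Real.exp_nat_mul]
            congr 1
            ring
        _ ≤ Real.exp (-(p ^ s * (L * δ * m / s))) := by
            refine Real.exp_le_exp.2 (neg_le_neg ?_)
            exact mul_le_mul_of_nonneg_left hF3 hps0
        _ = Real.exp (-(p ^ s * L * δ / s)) ^ m := by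
            rw [← Real.exp_nat_mul]
            congr 1
            ring
    have h3 : ∑ B ∈ BB, Ex (fun _ => p) (fun R => if ∀ X ∈ F B, ¬ X ⊆ R then (1 : ℝ) else 0) ≤
        δ := by
      refine (Finset.sum_le_sum h2).trans ?_
      rw [Finset.sum_const, nsmul_eq_mul]
      calc (BB.card : ℝ) * Real.exp (-(p ^ s * L * δ / s)) ^ m
          ≤ (Real.exp 1 * L) ^ m * Real.exp (-(p ^ s * L * δ / s)) ^ m :=
            mul_le_mul_of_nonneg_right hcount (by positivity)
        _ = (Real.exp 1 * L * Real.exp (-(p ^ s * L * δ / s))) ^ m := by rw [← mul_pow]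
        _ ≤ δ ^ m := pow_le_pow_left₀ (by positivity) hLd m
        _ ≤ δ ^ 1 := pow_le_pow_of_le_one hδ.le hδ1 hm
        _ = δ := pow_one δ
    linarith
  calc (1 - δ) ^ 2 * (m / K) = a * (1 - δ) := by rw [ha]; ring
    _ ≤ a * Ex (fun _ => p) (fun R => if Gd R then (1 : ℝ) else 0) :=
        mul_le_mul_of_nonneg_left hprob ha0
    _ = Ex (fun _ => p) (fun R => a * (if Gd R then (1 : ℝ) else 0)) := by
        rw [Ex_mul_left]
    _ ≤ Ex (fun _ => p) (fun R => optC Com (fun _ => 1) (Q ∩ R)) := by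
        refine Ex_mono hrate fun R => ?_
        split_ifs with h
        · rw [mul_one]
          exact hgood R h
        · rw [mul_zero]
          exact opt_nonneg hC0 _

/-- Unit weights, with `L` layers. -/
theorem unitS_main {k : ℕ} (M : Fin k → Matroid E) {K : ℝ} (hK : 1 ≤ K) {s : ℕ} (hs : 1 ≤ s)
    (hLS : LSP M K s)
    {L : ℕ} (hL : 1 ≤ L) {p δ : ℝ} (hp : 0 ≤ p) (hp1 : p ≤ 1) (hδ : 0 < δ) (hδ1 : δ ≤ 1)
    (hLd : Real.exp 1 * L * Real.exp (-(p ^ s * L * δ / s)) ≤ δ) :
    ∃ Q : Finset E, Q.card ≤ L * sSup {n : ℕ | ∃ S : Finset E,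
        (∀ i, (M i).Indep (S : Set E)) ∧ n = S.card} ∧
      (1 - δ) ^ 2 * (1 / (1 + K)) * Ex (fun _ => p)
          (optC (fun S : Finset E => ∀ i, (M i).Indep (S : Set E)) (fun _ => 1)) ≤
        Ex (fun _ => p) (fun R =>
          optC (fun S : Finset E => ∀ i, (M i).Indep (S : Set E)) (fun _ => 1) (Q ∩ R)) := by
  classical
  have hrate : IsRate (fun _ : E => p) := fun _ => ⟨hp, hp1⟩
  set Com : Finset E → Prop := fun S => ∀ i, (M i).Indep (S : Set E) with hCom
  have hC0 : Com ∅ := fun i => by simp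
  have hK0 : (0 : ℝ) < K := by linarith
  have hsub : ∀ S T : Finset E, S ⊆ T → Com T → Com S := fun S T h hT i =>
    (hT i).subset (Finset.coe_subset.2 h)
  have hKr : ∀ A : Finset E, ∃ S : Finset E, S ⊆ A ∧ Com S ∧
      (S.card : ℝ) = optC Com (fun _ => 1) A := by
    intro A
    obtain ⟨S, h1, h2, h3⟩ := opt_attained (w := fun _ => (1 : ℝ)) hC0 A
    refine ⟨S, h1, h2, ?_⟩
    rw [← h3, Finset.sum_const, nsmul_eq_mul, mul_one]
  choose Kr hKA hKC hKo using hKr
  have hKmax : ∀ A S : Finset E, S ⊆ A → Com S → S.card ≤ (Kr A).card := by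
    intro A S h1 h2
    have h3 := le_opt (w := fun _ => (1 : ℝ)) h1 h2
    rw [Finset.sum_const, nsmul_eq_mul, mul_one, ← hKo] at h3
    exact_mod_cast h3
  let Q : Finset E := (Finset.range L).biUnion fun t => Kr (restF Kr t)
  have hbdd : BddAbove {n : ℕ | ∃ S : Finset E, Com S ∧ n = S.card} := by
    refine ⟨Fintype.card E, ?_⟩
    rintro n ⟨S, -, rfl⟩
    exact Finset.card_le_univ S
  set m : ℕ := (Kr (restF Kr L)).card with hm
  have hres : ∀ R, optC Com (fun _ => 1) R ≤ optC Com (fun _ => 1) (Q ∩ R) + m := by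
    intro R
    refine opt_le hC0 fun S hSR hS => ?_
    rw [Finset.sum_const, nsmul_eq_mul, mul_one]
    have h1 : (S ∩ Q).card + (S \ Q).card = S.card := Finset.card_inter_add_card_sdiff S Q
    have h2 : (S \ Q).card ≤ m := by
      refine hKmax _ _ ?_ (hsub _ _ Finset.sdiff_subset hS)
      intro e he
      refine mem_restF Kr fun s hs hes => (Finset.mem_sdiff.1 he).2 ?_
      exact Finset.mem_biUnion.2 ⟨s, Finset.mem_range.2 hs, hes⟩
    have h3 : ((S ∩ Q).card : ℝ) ≤ optC Com (fun _ => 1) (Q ∩ R) := by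
      have h4 := le_opt (w := fun _ => (1 : ℝ)) (A := Q ∩ R) (S := S ∩ Q)
        (fun e he => Finset.mem_inter.2 ⟨(Finset.mem_inter.1 he).2,
          hSR (Finset.mem_inter.1 he).1⟩) (hsub _ _ Finset.inter_subset_left hS)
      rwa [Finset.sum_const, nsmul_eq_mul, mul_one] at h4
    have h5 : ((S ∩ Q).card : ℝ) + (S \ Q).card = S.card := by exact_mod_cast h1
    have h6 : ((S \ Q).card : ℝ) ≤ m := by exact_mod_cast h2
    linarith
  have hlow : (1 - δ) ^ 2 * (m / K) ≤
      Ex (fun _ => p) (fun R => optC Com (fun _ => 1) (Q ∩ R)) := by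
    rcases Nat.eq_zero_or_pos m with h0 | hpos
    · rw [h0]
      simp only [Nat.cast_zero, mul_zero, zero_div]
      exact Ex_nonneg hrate fun R => opt_nonneg hC0 _
    · refine denseS M hK hs hLS hpos hL (fun t => Kr (restF Kr t)) (fun t _ => hKC _) ?_ ?_ hp
        hp1 hδ hδ1 hLd Q ?_
      · intro t ht
        exact hKmax _ _ ((hKA _).trans (restF_anti Kr ht.le)) (hKC _)
      · intro s _ t _ hne
        rw [Finset.disjoint_left]
        intro e he he'
        rcases lt_or_gt_of_ne hne with h | h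
        · exact layF_disj Kr hKA h he he'
        · exact layF_disj Kr hKA h he' he
      · intro t ht
        exact Finset.subset_biUnion_of_mem (fun t => Kr (restF Kr t)) (Finset.mem_range.2 ht)
  refine ⟨Q, ?_, ?_⟩
  · refine Finset.card_biUnion_le.trans ?_
    refine (Finset.sum_le_sum fun t _ => le_csSup hbdd ⟨_, hKC (restF Kr t), rfl⟩).trans ?_
    rw [Finset.sum_const, Finset.card_range, smul_eq_mul]
  · have h1 : Ex (fun _ => p) (optC Com (fun _ => 1)) ≤
        Ex (fun _ => p) (fun R => optC Com (fun _ => 1) (Q ∩ R)) + m := by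
      refine (Ex_mono hrate hres).trans ?_
      rw [Ex_add, Ex_const]
    set b := Ex (fun _ => p) (fun R => optC Com (fun _ => 1) (Q ∩ R)) with hb
    have hc0 : 0 ≤ (1 - δ) ^ 2 := sq_nonneg _
    have hc1 : (1 - δ) ^ 2 ≤ 1 := by nlinarith
    have hb0 : 0 ≤ b := Ex_nonneg hrate fun R => opt_nonneg hC0 _
    have h2 : (1 - δ) ^ 2 * m ≤ b * K := by
      have h3 : (1 - δ) ^ 2 * ((m : ℝ) / K) = (1 - δ) ^ 2 * m / K := by ring
      rw [h3, div_le_iff₀ hK0] at hlow
      exact hlow
    calc (1 - δ) ^ 2 * (1 / (1 + K)) * Ex (fun _ => p) (optC Com (fun _ => 1))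
        ≤ (1 - δ) ^ 2 * (1 / (1 + K)) * (b + m) :=
          mul_le_mul_of_nonneg_left h1 (by positivity)
      _ = 1 / (1 + K) * ((1 - δ) ^ 2 * b + (1 - δ) ^ 2 * m) := by ring
      _ ≤ 1 / (1 + K) * (b + b * K) := by
          refine mul_le_mul_of_nonneg_left ?_ (by positivity)
          have : (1 - δ) ^ 2 * b ≤ 1 * b := mul_le_mul_of_nonneg_right hc1 hb0
          linarith
      _ = b := by field_simp

/-- The numbers. -/
theorem numbersS {δ : ℝ} (hδ : 0 < δ) (hδ1 : δ ≤ 1) {s : ℕ} (hs : 1 ≤ s) : ∃ C : ℝ, 0 < C ∧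
    ∀ p : ℝ, 0 < p → p ≤ 1 →
    ∃ L : ℕ, 1 ≤ L ∧ Real.exp 1 * L * Real.exp (-(p ^ s * L * δ / s)) ≤ δ ∧
      (L : ℝ) ≤ C / p ^ s * (1 + Real.log (1 / p)) := by
  have hsR : (1 : ℝ) ≤ s := by exact_mod_cast hs
  have he1 : (2 : ℝ) ≤ Real.exp 1 := by
    have := Real.add_one_le_exp (1 : ℝ)
    linarith
  set y : ℝ := 4 * Real.exp 1 * s / δ ^ 2 with hy
  have hδ2 : δ ^ 2 ≤ 1 := pow_le_one₀ hδ.le hδ1
  have hδ20 : 0 < δ ^ 2 := by positivity
  have hys : 8 * (s : ℝ) ≤ y := by
    rw [hy, le_div_iff₀ hδ20]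
    nlinarith
  have hy0 : 0 < y := by linarith
  set A : ℝ := s * y / δ with hA
  have hA0 : 0 < A := by positivity
  have hA1 : 1 ≤ A := by
    rw [hA, le_div_iff₀ hδ]
    nlinarith
  refine ⟨2 * A, by positivity, ?_⟩
  intro p hp hp1
  set l : ℝ := Real.log (1 / p) with hl
  have hl0 : 0 ≤ l := Real.log_nonneg (by rw [le_div_iff₀ hp]; linarith)
  have hpe : 1 / p = Real.exp l := by rw [hl, Real.exp_log (by positivity)]
  have hps : 0 < p ^ s := by positivity
  have hps1 : p ^ s ≤ 1 := pow_le_one₀ hp.le hp1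
  set x : ℝ := A / p ^ s * (1 + l) with hx
  have hx1 : 1 ≤ x := by
    have h1 : (1 : ℝ) ≤ A / p ^ s := by
      rw [le_div_iff₀ hps]
      linarith
    rw [hx]
    nlinarith
  have hL1 : x ≤ (⌈x⌉₊ : ℝ) := Nat.le_ceil x
  have hL2 : ((⌈x⌉₊ : ℕ) : ℝ) ≤ 2 * x := by
    have := (Nat.ceil_lt_add_one (by linarith : (0 : ℝ) ≤ x)).le
    linarith
  refine ⟨⌈x⌉₊, Nat.one_le_iff_ne_zero.2 fun h => ?_, ?_, ?_⟩
  · rw [h] at hL1
    norm_num at hL1
    linarith
  · have h1 : Real.exp (-(p ^ s * (⌈x⌉₊ : ℝ) * δ / s)) ≤ Real.exp (-(y * (1 + l))) := by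
      refine Real.exp_le_exp.2 (neg_le_neg ?_)
      have h2 : p ^ s * x * δ / s = y * (1 + l) := by
        rw [hx, hA]
        field_simp
      rw [← h2]
      have h3 : p ^ s * x ≤ p ^ s * (⌈x⌉₊ : ℝ) := mul_le_mul_of_nonneg_left hL1 hps.le
      have h4 : p ^ s * x * δ ≤ p ^ s * (⌈x⌉₊ : ℝ) * δ := mul_le_mul_of_nonneg_right h3 hδ.le
      exact div_le_div_of_nonneg_right h4 (by linarith)
    have h3 : Real.exp 1 * (2 * x) * (1 / δ) =
        (y / 2) * y * (Real.exp l ^ s * (1 + l)) := by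
      rw [← hpe, hx, hA]
      have h4 : y / 2 = 2 * Real.exp 1 * s / δ ^ 2 := by rw [hy]; ring
      rw [h4, div_pow, one_pow]
      field_simp
    have h4 : y / 2 ≤ Real.exp (y / 2) := by
      have := Real.add_one_le_exp (y / 2)
      linarith
    have h5 : y ≤ Real.exp (y / 2) := by
      have h6 : 1 + y / 4 ≤ Real.exp (y / 4) := by
        have := Real.add_one_le_exp (y / 4)
        linarith
      have h7 : Real.exp (y / 2) = Real.exp (y / 4) ^ 2 := by
        rw [← Real.exp_nat_mul]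
        congr 1
        push_cast
        ring
      rw [h7]
      have h8 : (1 + y / 4) ^ 2 ≤ Real.exp (y / 4) ^ 2 := pow_le_pow_left₀ (by positivity) h6 2
      nlinarith [sq_nonneg (1 - y / 4)]
    have h7 : 1 + l ≤ Real.exp l := by
      have := Real.add_one_le_exp l
      linarith
    have h8 : Real.exp 1 * (2 * x) * (1 / δ) ≤ Real.exp (y * (1 + l)) := by
      rw [h3]
      calc (y / 2) * y * (Real.exp l ^ s * (1 + l))
          ≤ Real.exp (y / 2) * Real.exp (y / 2) * (Real.exp l ^ s * Real.exp l) := by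
            refine mul_le_mul (mul_le_mul h4 h5 hy0.le (Real.exp_pos _).le) ?_ (by positivity)
              (by positivity)
            exact mul_le_mul_of_nonneg_left h7 (by positivity)
        _ = Real.exp (y + (s + 1) * l) := by
            rw [← Real.exp_nat_mul, ← Real.exp_add, ← Real.exp_add, ← Real.exp_add]
            congr 1
            ring
        _ ≤ Real.exp (y * (1 + l)) := by
            refine Real.exp_le_exp.2 ?_
            have h9 : ((s : ℝ) + 1) * l ≤ y * l := mul_le_mul_of_nonneg_right (by linarith) hl0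
            linarith
    have h9 : Real.exp 1 * (⌈x⌉₊ : ℝ) ≤ Real.exp 1 * (2 * x) :=
      mul_le_mul_of_nonneg_left hL2 (Real.exp_pos 1).le
    calc Real.exp 1 * (⌈x⌉₊ : ℝ) * Real.exp (-(p ^ s * (⌈x⌉₊ : ℝ) * δ / s))
        ≤ Real.exp 1 * (2 * x) * Real.exp (-(y * (1 + l))) :=
          mul_le_mul h9 h1 (Real.exp_pos _).le (by positivity)
      _ = Real.exp 1 * (2 * x) * (1 / δ) * Real.exp (-(y * (1 + l))) * δ := by
          field_simp
      _ ≤ Real.exp (y * (1 + l)) * Real.exp (-(y * (1 + l))) * δ := by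
          refine mul_le_mul_of_nonneg_right ?_ hδ.le
          exact mul_le_mul_of_nonneg_right h8 (Real.exp_pos _).le
      _ = δ := by rw [← Real.exp_add, add_neg_cancel, Real.exp_zero, one_mul]
  · refine hL2.trans (le_of_eq ?_)
    rw [hx]
    ring

/-- **Unit weights**: arbitrary matroids with the local search property. -/
theorem unitS {k : ℕ} {K : ℝ} (hK : 1 ≤ K) {s : ℕ} (hs : 1 ≤ s)
    (hLS : ∀ (E : Type) [Fintype E] [DecidableEq E] (M : Fin k → Matroid E) (B S : Finset E),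
      (∀ i, (M i).Indep (B : Set E)) → (∀ i, (M i).Indep (S : Set E)) →
      K * (B.card : ℝ) < (S.card : ℝ) →
      ∃ X : Finset E, X ⊆ S \ B ∧ X.card ≤ s ∧ ∃ B' : Finset E, B' ⊆ B ∪ X ∧
        (∀ i, (M i).Indep (B' : Set E)) ∧ B.card < B'.card) {δ : ℝ} (hδ : 0 < δ)
    (hδ1 : δ ≤ 1) : ∃ C : ℝ, 0 < C ∧
    ∀ (E : Type) [Fintype E] [DecidableEq E] (M : Fin k → Matroid E) (p : ℝ), 0 < p → p ≤ 1 →
      ∃ Q : Finset E, (Q.card : ℝ) ≤ C / p ^ s * (1 + Real.log (1 / p)) *
          ((sSup {n : ℕ | ∃ S : Finset E, (∀ i, (M i).Indep (S : Set E)) ∧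
            n = S.card} : ℕ) : ℝ) ∧
        (1 - δ) ^ 2 * (1 / (1 + K)) * Ex (fun _ => p)
            (optC (fun S : Finset E => ∀ i, (M i).Indep (S : Set E)) (fun _ => 1)) ≤
          Ex (fun _ => p) (fun R =>
            optC (fun S : Finset E => ∀ i, (M i).Indep (S : Set E)) (fun _ => 1) (Q ∩ R)) := by
  classical
  obtain ⟨C, hC, hnum⟩ := numbersS hδ hδ1 hs
  refine ⟨C, hC, ?_⟩
  intro E _ _ M p hp hp1
  obtain ⟨L, hL1, hL2, hL3⟩ := hnum p hp hp1
  obtain ⟨Q, hQ1, hQ2⟩ := unitS_main M hK hs (hLS E M) hL1 hp.le hp1 hδ hδ1 hL2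
  refine ⟨Q, ?_, hQ2⟩
  calc (Q.card : ℝ) ≤ ((L * sSup {n : ℕ | ∃ S : Finset E, (∀ i, (M i).Indep (S : Set E)) ∧
            n = S.card} : ℕ) : ℝ) := by exact_mod_cast hQ1
    _ = (L : ℝ) * ((sSup {n : ℕ | ∃ S : Finset E, (∀ i, (M i).Indep (S : Set E)) ∧
            n = S.card} : ℕ) : ℝ) := by push_cast; ring
    _ ≤ _ := mul_le_mul_of_nonneg_right hL3 (Nat.cast_nonneg _)

/-- **Unit weights**, ratio `2 / (k + 2)`, from the local search theorem. -/
theorem unitS_thm {k : ℕ} (hk : 2 ≤ k)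
    (hLS : ∀ d : ℝ, 0 < d → ∃ s : ℕ, 1 ≤ s ∧
      ∀ (E : Type) [Fintype E] [DecidableEq E] (M : Fin k → Matroid E) (B S : Finset E),
      (∀ i, (M i).Indep (B : Set E)) → (∀ i, (M i).Indep (S : Set E)) →
      ((k : ℝ) / 2 + d) * (B.card : ℝ) < (S.card : ℝ) →
      ∃ X : Finset E, X ⊆ S \ B ∧ X.card ≤ s ∧ ∃ B' : Finset E, B' ⊆ B ∪ X ∧
        (∀ i, (M i).Indep (B' : Set E)) ∧ B.card < B'.card) {ε : ℝ} (hε : 0 < ε) :
    ∃ C : ℝ, 0 < C ∧ ∃ s : ℕ,
    ∀ (E : Type) [Fintype E] [DecidableEq E] (M : Fin k → Matroid E) (p : ℝ), 0 < p → p ≤ 1 →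
      ∃ Q : Finset E, (Q.card : ℝ) ≤ C / p ^ s * (1 + Real.log (1 / p)) *
          ((sSup {n : ℕ | ∃ S : Finset E, (∀ i, (M i).Indep (S : Set E)) ∧
            n = S.card} : ℕ) : ℝ) ∧
        (1 - ε) * (2 / (k + 2)) * Ex (fun _ => p)
            (optC (fun S : Finset E => ∀ i, (M i).Indep (S : Set E)) (fun _ => 1)) ≤
          Ex (fun _ => p) (fun R =>
            optC (fun S : Finset E => ∀ i, (M i).Indep (S : Set E)) (fun _ => 1) (Q ∩ R)) := by
  classical
  set δ : ℝ := min ε 1 / 3 with hδdef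
  have hε'0 : 0 < min ε 1 := lt_min hε one_pos
  have hε'1 : min ε 1 ≤ 1 := min_le_right _ _
  have hε'2 : min ε 1 ≤ ε := min_le_left _ _
  have hδ : 0 < δ := by rw [hδdef]; linarith
  have hδ1 : δ ≤ 1 := by rw [hδdef]; linarith
  have hkR : (2 : ℝ) ≤ k := by exact_mod_cast hk
  obtain ⟨s, hs, hLSs⟩ := hLS δ hδ
  obtain ⟨C, hC, hmain⟩ := unitS (K := (k : ℝ) / 2 + δ) (by linarith) hs hLSs hδ hδ1
  refine ⟨C, hC, s, ?_⟩
  intro E _ _ M p hp hp1
  have hrate : IsRate (fun _ : E => p) := fun _ => ⟨hp.le, hp1⟩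
  obtain ⟨Q, hQ1, hQ2⟩ := hmain E M p hp hp1
  refine ⟨Q, hQ1, ?_⟩
  refine le_trans (mul_le_mul_of_nonneg_right ?_ ?_) hQ2
  · have h1 : (1 - δ) * (2 / ((k : ℝ) + 2)) ≤ 1 / (1 + ((k : ℝ) / 2 + δ)) := by
      rw [← mul_div_assoc, div_le_div_iff₀ (by linarith) (by linarith)]
      nlinarith
    have h2 : (1 - ε) ≤ (1 - δ) ^ 2 * (1 - δ) := by
      have h3 : min ε 1 = 3 * δ := by rw [hδdef]; ring
      nlinarith [sq_nonneg δ, mul_nonneg hδ.le (sq_nonneg δ)]
    calc (1 - ε) * (2 / ((k : ℝ) + 2)) ≤ (1 - δ) ^ 2 * (1 - δ) * (2 / ((k : ℝ) + 2)) :=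
          mul_le_mul_of_nonneg_right h2 (by positivity)
      _ = (1 - δ) ^ 2 * ((1 - δ) * (2 / ((k : ℝ) + 2))) := by ring
      _ ≤ (1 - δ) ^ 2 * (1 / (1 + ((k : ℝ) / 2 + δ))) :=
          mul_le_mul_of_nonneg_left h1 (sq_nonneg _)
  · exact Ex_nonneg hrate fun S => opt_nonneg (fun i => by simp) S

end Pool.Agent.Helper80.WM.UnitS
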